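import Pool.Agent.Lib.Tate.K.Spec

/-!
# C42 (MP_071d69_gt), K/C1: properties of Clifford multiplication (helper77)
-/

set_option autoImplicit false

open Set Filter Topology

noncomputable section

namespace Pool.Agent.Tate.Ko

open Idx Toe

namespace C1Aux

variable {N : ℕ}

/-- one summand -/
def AA (z : Fin N → ℂ) (i : Fin N) : Matrix (Finset (Fin N)) (Finset (Fin N)) ℂ :=
  z i • ee i + (starRingEnd ℂ) (z i) • (ee i).transpose

theorem cl_eq (z : Fin N → ℂ) : cl z = ∑ i, AA z i := rfl

theorem star_ee (i : Fin N) : (ee i).conjTranspose = (ee i).transpose := by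
  ext I I'
  rw [Matrix.conjTranspose_apply, Matrix.transpose_apply]
  unfold ee sg
  split_ifs
  · simp
  · simp

theorem ee_parity (i : Fin N) {I' I : Finset (Fin N)} (h : Even I'.card ↔ Even I.card) :
    ee i I' I = 0 := by
  unfold ee
  rw [if_neg]
  rintro ⟨h1, h2⟩
  rw [h2, Finset.card_insert_of_notMem h1, Nat.even_add_one] at h
  tauto

theorem AA_anti (h : S_Ca) (z : Fin N → ℂ) (i j : Fin N) :
    AA z i * AA z j + AA z j * AA z i =
      if i = j then ((2 * ‖z i‖ ^ 2 : ℝ) : ℂ) • (1 : Matrix _ _ ℂ) else 0 := by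
  have h1 := (h N i j).1
  have h2 := (h N i j).2
  have h3 := (h N j i).2
  have h4 : (ee i).transpose * (ee j).transpose + (ee j).transpose * (ee i).transpose = 0 := by
    have := congrArg Matrix.transpose h1
    rw [Matrix.transpose_add, Matrix.transpose_mul, Matrix.transpose_mul,
      Matrix.transpose_zero] at this
    rw [add_comm]
    exact this
  have e : AA z i * AA z j + AA z j * AA z i =
      (z i * z j) • (ee i * ee j + ee j * ee i) +
      ((starRingEnd ℂ) (z i) * (starRingEnd ℂ) (z j)) •
        ((ee i).transpose * (ee j).transpose + (ee j).transpose * (ee i).transpose) +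
      (z i * (starRingEnd ℂ) (z j)) • (ee i * (ee j).transpose + (ee j).transpose * ee i) +
      ((starRingEnd ℂ) (z i) * z j) • (ee j * (ee i).transpose + (ee i).transpose * ee j) := by
    unfold AA
    simp only [add_mul, mul_add, Matrix.smul_mul, Matrix.mul_smul, smul_smul, smul_add]
    rw [mul_comm (z j) (z i), mul_comm ((starRingEnd ℂ) (z j)) ((starRingEnd ℂ) (z i)),
      mul_comm ((starRingEnd ℂ) (z j)) (z i), mul_comm (z j) ((starRingEnd ℂ) (z i))]
    abel
  rw [e, h1, h2, h3, h4, smul_zero, smul_zero, zero_add, zero_add]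
  by_cases hij : i = j
  · subst hij
    rw [if_pos rfl, if_pos rfl, ← add_smul]
    congr 1
    rw [Complex.mul_conj, mul_comm ((starRingEnd ℂ) (z i)), Complex.mul_conj,
      Complex.normSq_eq_norm_sq]
    push_cast
    ring
  · rw [if_neg hij, if_neg (fun h' => hij h'.symm), if_neg hij, smul_zero, smul_zero, add_zero]

end C1Aux

open C1Aux in
theorem pC1 (h1 : S_Ca) : S_C1 := by
  intro N z
  refine ⟨?_, ?_, ?_⟩
  · have e1 : cl z * cl z = ∑ i, ∑ j, AA z i * AA z j := by
      rw [cl_eq, Finset.sum_mul_sum]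
    have e2 : cl z * cl z = ∑ i, ∑ j, AA z j * AA z i := by
      rw [e1, Finset.sum_comm]
    have e3 : cl z * cl z + cl z * cl z =
        ((2 * ∑ i, ‖z i‖ ^ 2 : ℝ) : ℂ) • (1 : Matrix (Finset (Fin N)) (Finset (Fin N)) ℂ) := by
      calc cl z * cl z + cl z * cl z
          = ∑ i, ∑ j, AA z i * AA z j + ∑ i, ∑ j, AA z j * AA z i := by rw [← e1, ← e2]
        _ = ∑ i, ∑ j, (AA z i * AA z j + AA z j * AA z i) := by
            rw [← Finset.sum_add_distrib]
            exact Finset.sum_congr rfl fun i _ => Finset.sum_add_distrib.symm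
        _ = ∑ i, ((2 * ‖z i‖ ^ 2 : ℝ) : ℂ) • (1 : Matrix _ _ ℂ) := by
            refine Finset.sum_congr rfl fun i _ => ?_
            rw [Finset.sum_congr rfl fun j _ => AA_anti h1 z i j, Finset.sum_ite_eq,
              if_pos (Finset.mem_univ i)]
        _ = _ := by
            rw [← Finset.sum_smul, ← Complex.ofReal_sum, Finset.mul_sum]
    have e4 : (2 : ℂ) • (cl z * cl z) = (2 : ℂ) •
        (((∑ i, ‖z i‖ ^ 2 : ℝ) : ℂ) • (1 : Matrix (Finset (Fin N)) (Finset (Fin N)) ℂ)) := by
      rw [two_smul, e3, smul_smul]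
      congr 1
      push_cast
      ring
    exact smul_right_injective _ (two_ne_zero : (2 : ℂ) ≠ 0) e4
  · rw [cl_eq, Matrix.conjTranspose_sum]
    refine Finset.sum_congr rfl fun i _ => ?_
    unfold AA
    rw [Matrix.conjTranspose_add, Matrix.conjTranspose_smul, Matrix.conjTranspose_smul, star_ee]
    have h2 : (ee i).transpose.conjTranspose = ee i := by
      rw [← star_ee, Matrix.conjTranspose_conjTranspose]
    rw [h2, add_comm]
    congr 1
    rw [← starRingEnd_apply, Complex.conj_conj]
  · intro I' I h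
    rw [cl_eq, Matrix.sum_apply]
    refine Finset.sum_eq_zero fun i _ => ?_
    unfold AA
    rw [Matrix.add_apply, Matrix.smul_apply, Matrix.smul_apply, Matrix.transpose_apply,
      ee_parity i h, ee_parity i h.symm, smul_zero, smul_zero, add_zero]

end Pool.Agent.Tate.Ko
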