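import Pool.Agent.Lib.Tate.K.Spec

set_option autoImplicit false

open Set Filter Topology

noncomputable section

namespace Pool.Agent.Tate.Ko

open Idx Toe

namespace CaAux

variable {N : ℕ}

theorem sg_sq (I : Finset (Fin N)) (i : Fin N) : sg I i * sg I i = 1 := by
  unfold sg
  rw [← pow_add, ← two_mul, pow_mul]
  norm_num

theorem sg_insert {I : Finset (Fin N)} {i : Fin N} (hi : i ∉ I) (j : Fin N) :
    sg (insert i I) j = (if i < j then -1 else 1) * sg I j := by
  unfold sg
  rw [Finset.filter_insert]
  split_ifs with h
  · rw [Finset.card_insert_of_notMem (by simp [hi]), pow_succ]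
    ring
  · rw [one_mul]

theorem sg_insert_self {I : Finset (Fin N)} {i : Fin N} (hi : i ∉ I) :
    sg (insert i I) i = sg I i := by
  rw [sg_insert hi, if_neg (lt_irrefl _), one_mul]

theorem mul_ee (A : Matrix (Finset (Fin N)) (Finset (Fin N)) ℂ) (j : Fin N)
    (I' I : Finset (Fin N)) :
    (A * ee j) I' I = if j ∉ I then A I' (insert j I) * sg I j else 0 := by
  rw [Matrix.mul_apply]
  by_cases h : j ∈ I
  · rw [if_neg (by simpa using h)]
    apply Finset.sum_eq_zero
    intro K _
    unfold ee
    rw [if_neg (by tauto), mul_zero]
  · rw [if_pos h, Finset.sum_eq_single (insert j I)]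
    · unfold ee
      rw [if_pos ⟨h, rfl⟩]
    · intro K _ hK
      unfold ee
      rw [if_neg (by tauto), mul_zero]
    · intro h'
      exact absurd (Finset.mem_univ _) h'

theorem mul_eeT (A : Matrix (Finset (Fin N)) (Finset (Fin N)) ℂ) (j : Fin N)
    (I' I : Finset (Fin N)) :
    (A * (ee j).transpose) I' I = if j ∈ I then A I' (I.erase j) * sg I j else 0 := by
  rw [Matrix.mul_apply]
  simp only [Matrix.transpose_apply]
  by_cases h : j ∈ I
  · rw [if_pos h, Finset.sum_eq_single (I.erase j)]
    · unfold ee
      have h1 : j ∉ I.erase j := Finset.notMem_erase j I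
      have h2 : insert j (I.erase j) = I := Finset.insert_erase h
      rw [if_pos ⟨h1, h2.symm⟩]
      rw [← sg_insert_self h1, h2]
    · intro K _ hK
      unfold ee
      rw [if_neg, mul_zero]
      rintro ⟨h1, h2⟩
      apply hK
      rw [h2, Finset.erase_insert h1]
    · intro h'
      exact absurd (Finset.mem_univ _) h'
  · rw [if_neg h]
    apply Finset.sum_eq_zero
    intro K _
    unfold ee
    rw [if_neg, mul_zero]
    rintro ⟨-, h2⟩
    apply h
    rw [h2]
    exact Finset.mem_insert_self _ _

theorem eeT_mul (A : Matrix (Finset (Fin N)) (Finset (Fin N)) ℂ) (j : Fin N)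
    (I' I : Finset (Fin N)) :
    ((ee j).transpose * A) I' I = if j ∉ I' then sg I' j * A (insert j I') I else 0 := by
  rw [Matrix.mul_apply]
  simp only [Matrix.transpose_apply]
  by_cases h : j ∈ I'
  · rw [if_neg (by simpa using h)]
    apply Finset.sum_eq_zero
    intro K _
    unfold ee
    rw [if_neg (by tauto), zero_mul]
  · rw [if_pos h, Finset.sum_eq_single (insert j I')]
    · unfold ee
      rw [if_pos ⟨h, rfl⟩]
    · intro K _ hK
      unfold ee
      rw [if_neg (by tauto), zero_mul]
    · intro h'
      exact absurd (Finset.mem_univ _) h'

theorem ee_ins {I : Finset (Fin N)} {i : Fin N} (h : i ∉ I) : ee i (insert i I) I = sg I i := by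
  unfold ee
  rw [if_pos ⟨h, rfl⟩]

theorem ee_zero {I' I : Finset (Fin N)} {i : Fin N} (h : ¬ (i ∉ I ∧ I' = insert i I)) :
    ee i I' I = 0 := by
  unfold ee
  rw [if_neg h]

end CaAux

open CaAux

theorem pCa : S_Ca := by
  intro N i j
  constructor
  · ext I' I
    rw [Matrix.add_apply, mul_ee, mul_ee, Matrix.zero_apply]
    by_cases hij : i = j
    · subst hij
      have : ee i I' (insert i I) = 0 := ee_zero (fun h => h.1 (Finset.mem_insert_self _ _))
      rw [this]
      simp
    · have hji : ¬ j = i := fun h => hij h.symm
      by_cases hi : i ∈ I
      · have h1 : ee i I' (insert j I) = 0 :=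
          ee_zero (fun h => h.1 (Finset.mem_insert_of_mem hi))
        rw [h1]
        simp [hi]
      · by_cases hj : j ∈ I
        · have h1 : ee j I' (insert i I) = 0 :=
            ee_zero (fun h => h.1 (Finset.mem_insert_of_mem hj))
          rw [h1]
          simp [hj]
        · rw [if_pos hj, if_pos hi]
          have h1 : i ∉ insert j I := by simp [hij, hi]
          have h2 : j ∉ insert i I := by simp [hji, hj]
          by_cases hI : I' = insert i (insert j I)
          · have hI2 : I' = insert j (insert i I) := by rw [hI, Finset.insert_comm]
            have e1 : ee i I' (insert j I) = sg (insert j I) i := by rw [hI]; exact ee_ins h1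
            have e2 : ee j I' (insert i I) = sg (insert i I) j := by rw [hI2]; exact ee_ins h2
            rw [e1, e2, sg_insert hj, sg_insert hi]
            rcases lt_or_gt_of_ne hij with h | h
            · rw [if_neg (not_lt.2 h.le), if_pos h]; ring
            · rw [if_pos h, if_neg (not_lt.2 h.le)]; ring
          · have hI2 : ¬ I' = insert j (insert i I) := by rwa [Finset.insert_comm]
            rw [ee_zero (fun h => hI h.2), ee_zero (fun h => hI2 h.2)]
            ring
  · ext I' I
    rw [Matrix.add_apply, mul_eeT, eeT_mul]
    by_cases hij : i = j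
    · subst hij
      rw [if_pos rfl]
      by_cases hi : i ∈ I
      · rw [if_pos hi, ee_zero (I' := insert i I') (I := I) (fun h => h.1 hi), mul_zero, ite_self,
          add_zero]
        have h1 : i ∉ I.erase i := Finset.notMem_erase i I
        have h2 : insert i (I.erase i) = I := Finset.insert_erase hi
        by_cases hI : I' = I
        · subst hI
          rw [Matrix.one_apply_eq]
          have e1 : ee i I' (I'.erase i) = sg (I'.erase i) i := by
            conv_lhs => rw [← h2]
            rw [h2]
            conv_lhs => lhs; rw [← h2]
            exact ee_ins h1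
          rw [e1, ← sg_insert_self h1, h2]
          exact sg_sq _ _
        · rw [Matrix.one_apply_ne hI, ee_zero, zero_mul]
          rintro ⟨-, h3⟩
          rw [h2] at h3
          exact hI h3
      · rw [if_neg hi, zero_add]
        by_cases hI : I' = I
        · subst hI
          rw [if_pos hi, ee_ins hi, Matrix.one_apply_eq]
          exact sg_sq _ _
        · rw [Matrix.one_apply_ne hI]
          by_cases hi' : i ∈ I'
          · rw [if_neg (by simpa using hi')]
          · rw [if_pos hi', ee_zero, mul_zero]
            rintro ⟨-, h3⟩
            apply hI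
            have := congrArg (fun K => K.erase i) h3
            simpa [Finset.erase_insert hi', Finset.erase_insert hi] using this
    · rw [if_neg hij, Matrix.zero_apply]
      have hji : ¬ j = i := fun h => hij h.symm
      by_cases h : j ∈ I ∧ i ∉ I ∧ I' = insert i (I.erase j)
      · obtain ⟨hj, hi, hI'⟩ := h
        obtain ⟨J, hJ⟩ : ∃ J, J = I.erase j := ⟨_, rfl⟩
        have hjJ : j ∉ J := by rw [hJ]; exact Finset.notMem_erase j I
        have hI : I = insert j J := by rw [hJ, Finset.insert_erase hj]
        have hiJ : i ∉ J := by
          intro h1
          apply hi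
          rw [hI]
          exact Finset.mem_insert_of_mem h1
        rw [← hJ] at hI' ⊢
        have hjI' : j ∉ I' := by
          rw [hI']
          simp [hji, hjJ]
        have e1 : ee i I' J = sg J i := by rw [hI']; exact ee_ins hiJ
        have e2 : ee i (insert j I') I = sg I i := by
          have : insert j I' = insert i I := by rw [hI', hI, Finset.insert_comm]
          rw [this]
          exact ee_ins hi
        rw [if_pos hj, if_pos hjI', e1, e2, hI', hI, sg_insert_self hjJ, sg_insert hiJ,
          sg_insert hjJ]
        rcases lt_or_gt_of_ne hij with h | h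
        · rw [if_pos h, if_neg (not_lt.2 h.le)]; ring
        · rw [if_neg (not_lt.2 h.le), if_pos h]; ring
      · have e1 : (if j ∈ I then ee i I' (I.erase j) * sg I j else 0) = 0 := by
          split_ifs with hj
          · rw [ee_zero, zero_mul]
            rintro ⟨h1, h2⟩
            apply h
            refine ⟨hj, ?_, h2⟩
            intro h3
            exact h1 (Finset.mem_erase.2 ⟨hij, h3⟩)
          · rfl
        have e2 : (if j ∉ I' then sg I' j * ee i (insert j I') I else 0) = 0 := by
          split_ifs with hj
          · rfl
          · rw [ee_zero, mul_zero]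
            rintro ⟨h1, h2⟩
            apply h
            have h3 : j ∈ I := by
              have : j ∈ insert i I := by rw [← h2]; exact Finset.mem_insert_self _ _
              rw [Finset.mem_insert] at this
              exact this.resolve_left hji
            refine ⟨h3, h1, ?_⟩
            have h4 := congrArg (fun K => K.erase j) h2
            simp only [Finset.erase_insert hj] at h4
            rw [h4, Finset.erase_insert_of_ne hij]
        rw [e1, e2, add_zero]

end Pool.Agent.Tate.Ko
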