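import Pool.Agent.Lib.Tate.K.Spec

/-!
# C42 (MP_071d69_gt), K/Ce: values of the symbols (helper82)
-/

set_option autoImplicit false

open Set Filter Topology

noncomputable section

namespace Pool.Agent.Tate.Ko

open Idx Toe

/-- **Ce.** Values of the symbols. -/
theorem pCe : S_Ce := by
  intro M w z
  ext I' I
  rw [Matrix.map_apply]
  unfold clS cl
  rw [Matrix.sum_apply, map_sum, Fin.sum_univ_add]
  have h0 : ∑ j : Fin w, ((Fin.append z (0 : Fin w → ℂ) (Fin.natAdd M j)) •
      (ee (Fin.natAdd M j) : Matrix (Finset (Fin (M + w))) (Finset (Fin (M + w))) ℂ) +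
      (starRingEnd ℂ) (Fin.append z (0 : Fin w → ℂ) (Fin.natAdd M j)) •
        (ee (Fin.natAdd M j)).transpose) I' I = 0 := by
    refine Finset.sum_eq_zero fun j _ => ?_
    rw [Fin.append_right]
    simp
  rw [h0, add_zero]
  refine Finset.sum_congr rfl fun i _ => ?_
  rw [map_add, map_mul, map_mul, ev_Zs, ev_Zc, ev_cG, ev_cG, Fin.append_left]
  rfl

end Pool.Agent.Tate.Ko
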