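import Pool.Agent.Lib.Tate.K.Spec

/-!
# C42 (MP_071d69_gt), K/Cg: equivariance of Clifford multiplication (helper82)
-/

set_option autoImplicit false

open Set Filter Topology

noncomputable section

namespace Pool.Agent.Tate.Ko

open Idx Toe

namespace CgAux

theorem chc_insert {N : ℕ} (ζ : Fin N → ℂ) {i : Fin N} {I : Finset (Fin N)} (hi : i ∉ I) :
    chc ζ (insert i I) = (ζ i)⁻¹ * chc ζ I := by
  unfold chc
  rw [Finset.prod_insert hi]

theorem ee_pos {N : ℕ} {i : Fin N} {I' I : Finset (Fin N)} (h : ee i I' I ≠ 0) :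
    i ∉ I ∧ I' = insert i I := by
  by_contra h'
  exact h (if_neg h')

theorem ne_zero {N : ℕ} {ζ : Fin N → ℂ} (h : ∀ i, ζ i ^ 4 = 1) (i : Fin N) : ζ i ≠ 0 := by
  intro h0
  have := h i
  rw [h0] at this
  norm_num at this

theorem conj_eq {N : ℕ} {ζ : Fin N → ℂ} (h : ∀ i, ζ i ^ 4 = 1) (i : Fin N) :
    (starRingEnd ℂ) (ζ i) = (ζ i)⁻¹ :=
  (Complex.inv_eq_conj (Complex.norm_eq_one_of_pow_eq_one (h i) (by norm_num))).symm

theorem cl_apply {N : ℕ} (z : Fin N → ℂ) (I' I : Finset (Fin N)) :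
    cl z I' I = ∑ i, (z i * ee i I' I + (starRingEnd ℂ) (z i) * ee i I I') := by
  unfold cl
  rw [Matrix.sum_apply]
  rfl

end CgAux

open CgAux

/-- **Cg.** Equivariance of Clifford multiplication. -/
theorem pCg : S_Cg := by
  intro N ζ z I' I h
  rw [cl_apply, cl_apply, Finset.sum_mul, Finset.mul_sum]
  refine Finset.sum_congr rfl fun i _ => ?_
  have h1 : ζ i * z i * ee i I' I * chc ζ I' = chc ζ I * (z i * ee i I' I) := by
    by_cases he : ee i I' I = 0
    · rw [he]
      ring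
    · obtain ⟨hi, hI⟩ := ee_pos he
      have h2 : chc ζ I' = (ζ i)⁻¹ * chc ζ I := by
        rw [hI]
        exact chc_insert ζ hi
      rw [h2]
      have h3 := ne_zero h i
      field_simp
  have h4 : (starRingEnd ℂ) (ζ i * z i) * ee i I I' * chc ζ I' =
      chc ζ I * ((starRingEnd ℂ) (z i) * ee i I I') := by
    by_cases he : ee i I I' = 0
    · rw [he]
      ring
    · obtain ⟨hi, hI⟩ := ee_pos he
      have h2 : chc ζ I = (ζ i)⁻¹ * chc ζ I' := by
        rw [hI]
        exact chc_insert ζ hi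
      rw [h2, map_mul, conj_eq h i]
      ring
  rw [add_mul, mul_add, h1, h4]

end Pool.Agent.Tate.Ko
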