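import Pool.Agent.Lib.Tate.K.Spec

/-!
# C42 (MP_071d69_gt), K/Cq: equivariance of the symbols (helper82)
-/

set_option autoImplicit false

open Set Filter Topology

noncomputable section

namespace Pool.Agent.Tate.Ko

open Idx Toe

namespace CqAux

theorem chc_insert {N : ℕ} (ζ : Fin N → ℂ) {i : Fin N} {I : Finset (Fin N)} (hi : i ∉ I) :
    chc ζ (insert i I) = (ζ i)⁻¹ * chc ζ I := by
  unfold chc
  rw [Finset.prod_insert hi]

theorem ee_pos {N : ℕ} {i : Fin N} {I' I : Finset (Fin N)} (h : ee i I' I ≠ 0) :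
    i ∉ I ∧ I' = insert i I := by
  by_contra h'
  exact h (if_neg h')

theorem ne_zero {N : ℕ} {ζ : Fin N → ℂ} (h : ∀ i, ζ i ^ 4 = 1) (i : Fin N) : ζ i ≠ 0 := by
  intro h0
  have := h i
  rw [h0] at this
  norm_num at this

/-- The coefficient as an additive map. -/
def co {M : ℕ} (k : Fin M → ℤ) : GS M →+ ((Fin M → ℝ) → ℂ) where
  toFun f := f.1.coeff k
  map_zero' := rfl
  map_add' _ _ := rfl

theorem co_Zs {M : ℕ} {k : Fin M → ℤ} {i : Fin M} {c : ℂ} (h : co k (Zs i * cG c) ≠ 0) :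
    k = Pi.single i 1 ∧ c ≠ 0 := by
  classical
  have h1 : co k (Zs i * cG c) = (AddMonoidAlgebra.single (Pi.single i 1 + 0)
      ((fun t => (Real.sqrt (t i) : ℂ)) * fun _ => c) : RR M).coeff k := by
    show ((AddMonoidAlgebra.single (Pi.single i 1) fun t => (Real.sqrt (t i) : ℂ)) *
      (AddMonoidAlgebra.single 0 fun _ => c) : RR M).coeff k = _
    rw [AddMonoidAlgebra.single_mul_single]
  rw [h1, AddMonoidAlgebra.coeff_single, Finsupp.single_apply] at h
  split_ifs at h with h2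
  · refine ⟨by rw [← h2, add_zero], ?_⟩
    intro hc
    apply h
    rw [hc]
    funext t
    exact mul_zero _
  · exact absurd rfl h

theorem co_Zc {M : ℕ} {k : Fin M → ℤ} {i : Fin M} {c : ℂ} (h : co k (Zc i * cG c) ≠ 0) :
    k = -Pi.single i 1 ∧ c ≠ 0 := by
  classical
  have h1 : co k (Zc i * cG c) = (AddMonoidAlgebra.single (-Pi.single i 1 + 0)
      ((fun t => (Real.sqrt (t i) : ℂ)) * fun _ => c) : RR M).coeff k := by
    show ((AddMonoidAlgebra.single (-Pi.single i 1) fun t => (Real.sqrt (t i) : ℂ)) *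
      (AddMonoidAlgebra.single 0 fun _ => c) : RR M).coeff k = _
    rw [AddMonoidAlgebra.single_mul_single]
  rw [h1, AddMonoidAlgebra.coeff_single, Finsupp.single_apply] at h
  split_ifs at h with h2
  · refine ⟨by rw [← h2, add_zero], ?_⟩
    intro hc
    apply h
    rw [hc]
    funext t
    exact mul_zero _
  · exact absurd rfl h

theorem prod_single {M : ℕ} (ζ : Fin M → ℂ) (i : Fin M) :
    ∏ j, ζ j ^ (Pi.single i 1 : Fin M → ℤ) j = ζ i := by
  rw [Finset.prod_eq_single i]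
  · rw [Pi.single_eq_same, zpow_one]
  · intro j _ hj
    rw [Pi.single_eq_of_ne hj, zpow_zero]
  · intro h
    exact absurd (Finset.mem_univ i) h

theorem prod_neg_single {M : ℕ} (ζ : Fin M → ℂ) (i : Fin M) :
    ∏ j, ζ j ^ (-Pi.single i 1 : Fin M → ℤ) j = (ζ i)⁻¹ := by
  rw [Finset.prod_eq_single i]
  · rw [Pi.neg_apply, Pi.single_eq_same, zpow_neg, zpow_one]
  · intro j _ hj
    rw [Pi.neg_apply, Pi.single_eq_of_ne hj, neg_zero, zpow_zero]
  · intro h
    exact absurd (Finset.mem_univ i) h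

/-- Equivariance of the entries of `clS`. -/
theorem key {M w : ℕ} {ζ : Fin (M + w) → ℂ} (hζ : ∀ i, ζ i ^ 4 = 1)
    (I' I : Finset (Fin (M + w))) (k : Fin M → ℤ) (h : (clS M w I' I).1.coeff k ≠ 0) :
    (∏ i, ζ (Fin.castAdd w i) ^ k i) * chc ζ I' = chc ζ I := by
  have h' : co k (∑ i : Fin M, (Zs i * cG (ee (Fin.castAdd w i) I' I) +
      Zc i * cG (ee (Fin.castAdd w i) I I'))) ≠ 0 := h
  rw [map_sum] at h'
  obtain ⟨i, _, hi⟩ := Finset.exists_ne_zero_of_sum_ne_zero h'
  rw [map_add] at hi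
  by_cases h1 : co k (Zs i * cG (ee (Fin.castAdd w i) I' I)) = 0
  · rw [h1, zero_add] at hi
    obtain ⟨hk, hc⟩ := co_Zc hi
    obtain ⟨hi1, hi2⟩ := ee_pos hc
    rw [hk, prod_neg_single fun i => ζ (Fin.castAdd w i), hi2, chc_insert ζ hi1]
  · obtain ⟨hk, hc⟩ := co_Zs h1
    obtain ⟨hi1, hi2⟩ := ee_pos hc
    rw [hk, prod_single fun i => ζ (Fin.castAdd w i), hi2, chc_insert ζ hi1, ← mul_assoc,
      mul_inv_cancel₀ (ne_zero hζ _), one_mul]

end CqAux

open CqAux

/-- **Cq.** Equivariance of the symbols. -/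
theorem pCq : S_Cq := by
  intro M w L _ _ lam ζ hζ
  constructor
  · intro p q k h
    have hpq : p.1 = q.1 := by
      by_contra h'
      apply h
      have : clE M w L p q = 0 := if_neg h'
      rw [this]
      rfl
    have he : clE M w L p q = clS M w p.2.1 q.2.1 := if_pos hpq
    rw [he] at h
    have := key hζ p.2.1 q.2.1 k h
    show _ * (lam p.1 * chc ζ p.2.1) = lam q.1 * chc ζ q.2.1
    rw [← this, hpq]
    ring
  · intro p q k h
    have hpq : p.1 = q.1 := by
      by_contra h'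
      apply h
      have : clO M w L p q = 0 := if_neg h'
      rw [this]
      rfl
    have he : clO M w L p q = clS M w p.2.1 q.2.1 := if_pos hpq
    rw [he] at h
    have := key hζ p.2.1 q.2.1 k h
    show _ * (lam p.1 * chc ζ p.2.1) = lam q.1 * chc ζ q.2.1
    rw [← this, hpq]
    ring

end Pool.Agent.Tate.Ko
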