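import Pool.Agent.Lib.Tate.K.Spec

/-!
# C42 (MP_071d69_gt), block K, statement Fn: the final inequality
-/

set_option autoImplicit false

open Set Filter Topology

noncomputable section

namespace Pool.Agent.Tate.Ko

open Idx Toe

namespace FnM

private theorem n1 {z : ℂ} (h : z ^ 4 = 1) : ‖z‖ = 1 := by
  have h1 : ‖z‖ ^ 4 = 1 := by rw [← norm_pow, h, norm_one]
  exact (pow_eq_one_iff_of_nonneg (norm_nonneg z) (by norm_num)).1 h1

private theorem ne0 {z : ℂ} (h : z ^ 4 = 1) : z ≠ 0 := by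
  intro h0
  rw [h0] at h
  norm_num at h

private theorem chc4 {N : ℕ} {ζ : Fin N → ℂ} (h : ∀ i, ζ i ^ 4 = 1) (I : Finset (Fin N)) :
    chc ζ I ^ 4 = 1 := by
  unfold chc
  rw [← Finset.prod_pow]
  exact Finset.prod_eq_one fun i _ => by rw [inv_pow, h, inv_one]

private theorem big {x y : ℤ} (h : (x : ℂ) + y * Complex.I ≠ 0) :
    1 ≤ ‖(x : ℂ) + y * Complex.I‖ := by
  have h1 : ‖(x : ℂ) + y * Complex.I‖ ^ 2 = (x : ℝ) ^ 2 + (y : ℝ) ^ 2 := by
    rw [← Complex.normSq_eq_norm_sq, Complex.normSq_apply]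
    simp
    ring
  have h2 : 0 < ‖(x : ℂ) + y * Complex.I‖ ^ 2 := pow_pos (norm_pos_iff.2 h) 2
  rw [h1] at h2
  have h3 : (0 : ℤ) < x ^ 2 + y ^ 2 := by exact_mod_cast h2
  have h4 : (1 : ℤ) ≤ x ^ 2 + y ^ 2 := h3
  have h5 : (1 : ℝ) ≤ (x : ℝ) ^ 2 + (y : ℝ) ^ 2 := by exact_mod_cast h4
  rw [← h1] at h5
  nlinarith [norm_nonneg ((x : ℂ) + y * Complex.I)]

end FnM

open FnM in
theorem pFn (h1 : Toe.S_To1) (h2 : Toe.S_Dg) (h3 : Toe.S_Di) (h4 : S_Kp) (h5 : S_K5) :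
    S_Fn := by
  intro M w d L _ _ L₀ lam ζ e η F hM hL hζ hη hlam hlam1 hζ1 he heq hF hEq hdet hFz
  have hχ : ∀ j, chE lam ζ j ^ 4 = 1 := by
    intro j
    show (lam j.1 * chc ζ j.2.1) ^ 4 = 1
    rw [mul_pow, hlam, chc4 hζ, one_mul]
  obtain ⟨T, hT⟩ := h1 M _ _ (phS M w L₀ e)
  obtain ⟨⟨g, hg⟩, -⟩ := h2 M (L × Ev (M + w)) (fun i => ζ (Fin.castAdd w i)) (chE lam ζ)
    (fun i => hζ _) hχ
  have hind := h5 M w L L₀ lam ζ e T g hM hζ hlam hlam1 he heq hT hg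
  obtain ⟨hKv, hKd, hKe⟩ := h4 M w L L₀ lam ζ e hζ he heq
  have e1 : (fun i => Fin.append (fun i => ζ (Fin.castAdd w i)) η (Fin.castAdd d i)) =
      fun i => ζ (Fin.castAdd w i) := by
    funext i
    rw [Fin.append_left]
  obtain ⟨x, y, hxy⟩ := h3 M d (L × Ev (M + w)) (Fin.append (fun i => ζ (Fin.castAdd w i)) η)
    (chE lam ζ) F (phS M w L₀ e) T g _ hM (by
      intro i
      refine Fin.addCases (fun i => ?_) (fun i => ?_) i
      · rw [Fin.append_left]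
        exact hζ _
      · rw [Fin.append_right]
        exact hη i) hχ hF hEq hdet (by rw [e1]; exact hKe) (by
      intro z hz
      rw [hKv, hFz z hz]) hT (by rw [e1]; exact hg) hind
  have e2 : ∏ i : Fin d, (1 - Fin.append (fun i => ζ (Fin.castAdd w i)) η (Fin.natAdd M i)) =
      ∏ i : Fin d, (1 - η i) :=
    Finset.prod_congr rfl fun i _ => by rw [Fin.append_right]
  rw [e2] at hxy
  have hva : ‖va M w ζ‖ = ∏ k : Fin w, ‖1 - (ζ (Fin.natAdd M k))⁻¹‖ := by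
    unfold va
    rw [norm_mul, norm_mul, norm_pow, norm_neg, norm_one, one_pow, one_mul, norm_prod, norm_prod,
      Finset.prod_eq_one, one_mul]
    intro i _
    rw [norm_inv, n1 (hζ _), inv_one]
  have hne : (L₀.card : ℂ) * va M w ζ ≠ 0 := by
    refine mul_ne_zero (Nat.cast_ne_zero.2 (Finset.card_pos.2 hL).ne') ?_
    rw [← norm_ne_zero_iff, hva]
    refine Finset.prod_ne_zero_iff.2 fun k _ => ?_
    rw [norm_ne_zero_iff, sub_ne_zero]
    intro h
    apply hζ1 k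
    rw [← inv_inv (ζ (Fin.natAdd M k)), ← h, inv_one]
  have hxy0 : (x : ℂ) + y * Complex.I ≠ 0 := by
    intro h
    apply hne
    rw [hxy, h, mul_zero]
  have h6 := congrArg norm hxy
  rw [norm_mul, norm_mul, norm_prod, hva, Complex.norm_natCast] at h6
  rw [h6]
  exact le_mul_of_one_le_right (Finset.prod_nonneg fun _ _ => norm_nonneg _) (big hxy0)

end Pool.Agent.Tate.Ko
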