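import Pool.Agent.Lib.Tate.K.Spec

/-!
# C42 (MP_071d69_gt), T7 (Det), block K: the alternating sum of the characters
-/

set_option autoImplicit false

open Set Filter Topology

noncomputable section

namespace Pool.Agent.Tate.Ko

open Idx Toe

namespace K1Aux

variable {M w : ℕ}

/-- the indices which are not `-1` -/
def gd (p : (Fin M → ℕ) × Finset (Fin (M + w))) : Finset (Fin M) :=
  Finset.univ.filter fun i => ¬ (p.1 i = 0 ∧ Fin.castAdd w i ∈ p.2)

/-- the summand -/
def ff (ζ : Fin (M + w) → ℂ) (p : (Fin M → ℕ) × Finset (Fin (M + w))) : ℂ :=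
  (-1 : ℂ) ^ p.2.card * ((∏ i : Fin M, ζ (Fin.castAdd w i) ^ p.1 i) * chc ζ p.2)

/-- one step up -/
def up (i : Fin M) (p : (Fin M → ℕ) × Finset (Fin (M + w))) :
    (Fin M → ℕ) × Finset (Fin (M + w)) :=
  (Function.update p.1 i (p.1 i + 1), insert (Fin.castAdd w i) p.2)

/-- one step down -/
def dn (i : Fin M) (p : (Fin M → ℕ) × Finset (Fin (M + w))) :
    (Fin M → ℕ) × Finset (Fin (M + w)) :=
  (Function.update p.1 i (p.1 i - 1), p.2.erase (Fin.castAdd w i))

theorem up_dn (i : Fin M) (p : (Fin M → ℕ) × Finset (Fin (M + w)))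
    (h : Fin.castAdd w i ∈ p.2) (h' : p.1 i ≠ 0) : up i (dn i p) = p := by
  unfold up dn
  refine Prod.ext ?_ ?_
  · simp only [Function.update_self, Function.update_idem]
    rw [Nat.sub_add_cancel (Nat.one_le_iff_ne_zero.mpr h'), Function.update_eq_self]
  · exact Finset.insert_erase h

theorem dn_up (i : Fin M) (p : (Fin M → ℕ) × Finset (Fin (M + w)))
    (h : Fin.castAdd w i ∉ p.2) : dn i (up i p) = p := by
  unfold up dn
  refine Prod.ext ?_ ?_
  · simp only [Function.update_self, Function.update_idem]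
    rw [Nat.add_sub_cancel, Function.update_eq_self]
  · exact Finset.erase_insert h

theorem cast_inj {i j : Fin M} (h : Fin.castAdd w i = Fin.castAdd w j) : i = j :=
  Fin.castAdd_injective M w h

theorem gd_up (i : Fin M) (p : (Fin M → ℕ) × Finset (Fin (M + w)))
    (h : Fin.castAdd w i ∉ p.2) : gd (up i p) = gd p := by
  ext j
  simp only [gd, up, Finset.mem_filter, Finset.mem_univ, true_and]
  by_cases hji : j = i
  · subst hji
    refine iff_of_true ?_ fun h' => h h'.2
    rintro ⟨h1, -⟩
    rw [Function.update_self] at h1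
    omega
  · rw [Function.update_of_ne hji, Finset.mem_insert]
    have : Fin.castAdd w j ≠ Fin.castAdd w i := fun h' => hji (cast_inj h')
    tauto

theorem dg_up (i : Fin M) (p : (Fin M → ℕ) × Finset (Fin (M + w)))
    (h : Fin.castAdd w i ∉ p.2) : dg (up i p).1 (up i p).2 = dg p.1 p.2 := by
  unfold dg up
  have h1 : ∑ j, ((Function.update p.1 i (p.1 i + 1) j : ℕ) : ℤ) = (∑ j, (p.1 j : ℤ)) + 1 := by
    rw [← Finset.add_sum_erase _ _ (Finset.mem_univ i),
      ← Finset.add_sum_erase (a := i) Finset.univ (fun j => (p.1 j : ℤ)) (Finset.mem_univ i)]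
    rw [Function.update_self]
    have : ∑ j ∈ Finset.univ.erase i, ((Function.update p.1 i (p.1 i + 1) j : ℕ) : ℤ) =
        ∑ j ∈ Finset.univ.erase i, (p.1 j : ℤ) := by
      refine Finset.sum_congr rfl fun j hj => ?_
      rw [Function.update_of_ne (Finset.ne_of_mem_erase hj)]
    rw [this]
    push_cast
    ring
  have h2 : ((insert (Fin.castAdd w i) p.2).filter fun j : Fin (M + w) => (j : ℕ) < M).card =
      (p.2.filter fun j : Fin (M + w) => (j : ℕ) < M).card + 1 := by
    rw [Finset.filter_insert, if_pos (by simp), Finset.card_insert_of_notMem]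
    simp [h]
  simp only [h1, h2]
  push_cast
  ring

theorem ff_up (ζ : Fin (M + w) → ℂ) (hζ : ∀ i, ζ i ≠ 0) (i : Fin M)
    (p : (Fin M → ℕ) × Finset (Fin (M + w))) (h : Fin.castAdd w i ∉ p.2) :
    ff ζ (up i p) = - ff ζ p := by
  unfold ff up
  have h1 : ∏ j : Fin M, ζ (Fin.castAdd w j) ^ (Function.update p.1 i (p.1 i + 1) j) =
      ζ (Fin.castAdd w i) * ∏ j : Fin M, ζ (Fin.castAdd w j) ^ p.1 j := by
    rw [← Finset.mul_prod_erase _ _ (Finset.mem_univ i),
      ← Finset.mul_prod_erase (a := i) Finset.univ (fun j => ζ (Fin.castAdd w j) ^ p.1 j)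
        (Finset.mem_univ i)]
    rw [Function.update_self]
    have : ∏ j ∈ Finset.univ.erase i, ζ (Fin.castAdd w j) ^ (Function.update p.1 i (p.1 i + 1) j) =
        ∏ j ∈ Finset.univ.erase i, ζ (Fin.castAdd w j) ^ p.1 j := by
      refine Finset.prod_congr rfl fun j hj => ?_
      rw [Function.update_of_ne (Finset.ne_of_mem_erase hj)]
    rw [this, pow_succ]
    ring
  have h2 : chc ζ (insert (Fin.castAdd w i) p.2) = (ζ (Fin.castAdd w i))⁻¹ * chc ζ p.2 := by
    unfold chc
    rw [Finset.prod_insert h]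
  simp only [h1, h2, Finset.card_insert_of_notMem h]
  rw [pow_succ]
  field_simp [hζ (Fin.castAdd w i)]

/-- the involution -/
def tg (p : (Fin M → ℕ) × Finset (Fin (M + w))) (h : (gd p).Nonempty) :
    (Fin M → ℕ) × Finset (Fin (M + w)) :=
  if Fin.castAdd w ((gd p).min' h) ∈ p.2 then dn ((gd p).min' h) p else up ((gd p).min' h) p

theorem tg_prop (ζ : Fin (M + w) → ℂ) (hζ : ∀ i, ζ i ≠ 0)
    (p : (Fin M → ℕ) × Finset (Fin (M + w))) (h : (gd p).Nonempty) :
    gd (tg p h) = gd p ∧ dg (tg p h).1 (tg p h).2 = dg p.1 p.2 ∧ ff ζ (tg p h) = - ff ζ p ∧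
      tg p h ≠ p ∧ ∀ h' : (gd (tg p h)).Nonempty, tg (tg p h) h' = p := by
  set i := (gd p).min' h with hi
  have him : i ∈ gd p := Finset.min'_mem _ _
  have him' : ¬ (p.1 i = 0 ∧ Fin.castAdd w i ∈ p.2) := (Finset.mem_filter.mp him).2
  have hmin : ∀ (q : (Fin M → ℕ) × Finset (Fin (M + w))) (hq : gd q = gd p)
      (hq' : (gd q).Nonempty), (gd q).min' hq' = i := by
    intro q hq hq'
    have key : ∀ (s t : Finset (Fin M)) (_ : s = t) (hs : s.Nonempty) (ht : t.Nonempty),
        s.min' hs = t.min' ht := by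
      intro s t e hs ht
      subst e
      rfl
    exact key _ _ hq hq' h
  by_cases hc : Fin.castAdd w i ∈ p.2
  · have e : tg p h = dn i p := by
      unfold tg
      rw [← hi, if_pos hc]
    have h0 : p.1 i ≠ 0 := fun h0 => him' ⟨h0, hc⟩
    have hn : Fin.castAdd w i ∉ (dn i p).2 := by
      unfold dn
      simp
    have hud := up_dn i p hc h0
    have g1 : gd (dn i p) = gd p := by
      rw [← gd_up i _ hn, hud]
    rw [e]
    refine ⟨g1, ?_, ?_, ?_, fun h' => ?_⟩
    · rw [← dg_up i _ hn, hud]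
    · have := ff_up ζ hζ i _ hn
      rw [hud] at this
      rw [this, neg_neg]
    · intro h'
      exact hn (by rw [h']; exact hc)
    · unfold tg
      rw [hmin _ g1 h', if_neg hn, hud]
  · have e : tg p h = up i p := by
      unfold tg
      rw [← hi, if_neg hc]
    have hy : Fin.castAdd w i ∈ (up i p).2 := by
      unfold up
      simp
    have g1 : gd (up i p) = gd p := gd_up i p hc
    rw [e]
    refine ⟨g1, dg_up i p hc, ff_up ζ hζ i p hc, ?_, fun h' => ?_⟩
    · intro h'
      exact hc (by rw [← h']; exact hy)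
    · unfold tg
      rw [hmin _ g1 h', if_pos hy, dn_up i p hc]

end K1Aux

open K1Aux

theorem pK1 : S_K1 := by
  classical
  intro M w ζ n hζ hn
  set B : ℕ := (n + M).toNat + 1 with hB
  set s : Finset ((Fin M → ℕ) × Finset (Fin (M + w))) :=
    ((Fintype.piFinset fun _ : Fin M => Finset.range B) ×ˢ Finset.univ).filter
      (fun p => dg p.1 p.2 < n) with hs
  have hmem : ∀ p, p ∈ s ↔ dg p.1 p.2 < n := by
    intro p
    rw [hs, Finset.mem_filter]
    refine ⟨fun h => h.2, fun h => ⟨?_, h⟩⟩
    rw [Finset.mem_product]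
    refine ⟨?_, Finset.mem_univ _⟩
    rw [Fintype.mem_piFinset]
    intro i
    rw [Finset.mem_range]
    have h1 : ((p.2.filter fun i : Fin (M + w) => (i : ℕ) < M).card : ℤ) ≤ M := by
      have h2 : (p.2.filter fun i : Fin (M + w) => (i : ℕ) < M).card ≤
          ((Finset.univ : Finset (Fin M)).image (Fin.castAdd w)).card := by
        refine Finset.card_le_card fun j hj => ?_
        rw [Finset.mem_image]
        have := (Finset.mem_filter.mp hj).2
        exact ⟨⟨j, this⟩, Finset.mem_univ _, Fin.ext rfl⟩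
      have h3 := h2.trans Finset.card_image_le
      rw [Finset.card_univ, Fintype.card_fin] at h3
      exact_mod_cast h3
    have h4 : (p.1 i : ℤ) ≤ ∑ j, (p.1 j : ℤ) :=
      Finset.single_le_sum (f := fun j => (p.1 j : ℤ)) (fun j _ => Int.natCast_nonneg _)
        (Finset.mem_univ i)
    unfold dg at h
    omega
  refine ⟨s, hmem, ?_⟩
  show ∑ p ∈ s, ff ζ p = va M w ζ
  rw [← Finset.sum_filter_add_sum_filter_not s (fun p => (gd p).Nonempty)]
  have z1 : ∑ p ∈ s.filter (fun p => (gd p).Nonempty), ff ζ p = 0 := by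
    refine Finset.sum_involution (fun p hp => tg p (Finset.mem_filter.mp hp).2) ?_ ?_ ?_ ?_
    · intro p hp
      rw [(tg_prop ζ hζ p _).2.2.1, add_neg_cancel]
    · intro p hp _
      exact (tg_prop ζ hζ p _).2.2.2.1
    · intro p hp
      have h := tg_prop ζ hζ p (Finset.mem_filter.mp hp).2
      rw [Finset.mem_filter, hmem, h.2.1, h.1]
      exact ⟨(hmem p).mp (Finset.mem_filter.mp hp).1, (Finset.mem_filter.mp hp).2⟩
    · intro p hp
      exact (tg_prop ζ hζ p _).2.2.2.2 _
  rw [z1, zero_add]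
  -- the remaining pairs
  set A : Finset (Fin (M + w)) := (Finset.univ : Finset (Fin M)).image (Fin.castAdd w) with hA
  have hdis : ∀ I : Finset (Fin w), Disjoint A (I.image (Fin.natAdd M)) := by
    intro I
    rw [Finset.disjoint_left]
    intro x hx hx'
    rw [hA, Finset.mem_image] at hx
    rw [Finset.mem_image] at hx'
    obtain ⟨i, -, rfl⟩ := hx
    obtain ⟨j, -, hj⟩ := hx'
    have := congrArg Fin.val hj
    simp at this
    omega
  have hcA : A.card = M := by
    rw [hA, Finset.card_image_of_injective _ (Fin.castAdd_injective M w), Finset.card_univ,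
      Fintype.card_fin]
  have hset : s.filter (fun p => ¬ (gd p).Nonempty) =
      (Finset.univ : Finset (Finset (Fin w))).image
        (fun I => ((0 : Fin M → ℕ), A ∪ I.image (Fin.natAdd M))) := by
    ext p
    rw [Finset.mem_filter, hmem, Finset.mem_image]
    constructor
    · rintro ⟨-, h2⟩
      have h3 : ∀ i : Fin M, p.1 i = 0 ∧ Fin.castAdd w i ∈ p.2 := by
        intro i
        by_contra hc
        exact h2 ⟨i, Finset.mem_filter.mpr ⟨Finset.mem_univ i, hc⟩⟩
      refine ⟨Finset.univ.filter fun k => Fin.natAdd M k ∈ p.2, Finset.mem_univ _, ?_⟩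
      refine Prod.ext ?_ ?_
      · funext i
        exact (h3 i).1.symm
      · ext x
        rw [Finset.mem_union, hA, Finset.mem_image, Finset.mem_image]
        constructor
        · rintro (⟨i, -, rfl⟩ | ⟨k, hk, rfl⟩)
          · exact (h3 i).2
          · exact (Finset.mem_filter.mp hk).2
        · intro hx
          refine Fin.addCases (motive := fun x => x ∈ p.2 →
            (∃ a ∈ Finset.univ, Fin.castAdd w a = x) ∨
            ∃ a ∈ Finset.univ.filter fun k => Fin.natAdd M k ∈ p.2, Fin.natAdd M a = x)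
            (fun i _ => Or.inl ⟨i, Finset.mem_univ i, rfl⟩)
            (fun k hk => Or.inr ⟨k, Finset.mem_filter.mpr ⟨Finset.mem_univ k, hk⟩, rfl⟩) x hx
    · rintro ⟨I, -, rfl⟩
      have h5 : (A ∪ I.image (Fin.natAdd M)).filter (fun i : Fin (M + w) => (i : ℕ) < M) = A := by
        ext x
        rw [Finset.mem_filter, Finset.mem_union]
        constructor
        · rintro ⟨h6 | h6, h7⟩
          · exact h6
          · rw [Finset.mem_image] at h6
            obtain ⟨k, -, rfl⟩ := h6
            simp at h7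
        · intro h6
          refine ⟨Or.inl h6, ?_⟩
          rw [hA, Finset.mem_image] at h6
          obtain ⟨i, -, rfl⟩ := h6
          simp
      refine ⟨?_, ?_⟩
      · unfold dg
        simp only [h5, hcA]
        simpa using hn
      · rintro ⟨i, hi⟩
        refine (Finset.mem_filter.mp hi).2 ⟨rfl, ?_⟩
        exact Finset.mem_union_left _ (Finset.mem_image_of_mem _ (Finset.mem_univ i))
  have hinj : Set.InjOn (fun I : Finset (Fin w) => ((0 : Fin M → ℕ), A ∪ I.image (Fin.natAdd M)))
      (Finset.univ : Finset (Finset (Fin w))) := by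
    intro I _ J _ h
    have h1 : A ∪ I.image (Fin.natAdd M) = A ∪ J.image (Fin.natAdd M) := congrArg Prod.snd h
    ext k
    have h2 := Finset.ext_iff.mp h1 (Fin.natAdd M k)
    have h3 : Fin.natAdd M k ∉ A := by
      intro h4
      rw [hA, Finset.mem_image] at h4
      obtain ⟨i, -, hi⟩ := h4
      have := congrArg Fin.val hi
      simp at this
      omega
    have h5 : ∀ I : Finset (Fin w), Fin.natAdd M k ∈ I.image (Fin.natAdd M) ↔ k ∈ I := by
      intro I
      rw [Finset.mem_image]
      constructor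
      · rintro ⟨a, ha, hak⟩
        rwa [Fin.natAdd_injective w M hak] at ha
      · exact fun hk => ⟨k, hk, rfl⟩
    rw [Finset.mem_union, Finset.mem_union, h5, h5] at h2
    tauto
  rw [hset, Finset.sum_image hinj]
  have hterm : ∀ I : Finset (Fin w), ff ζ ((0 : Fin M → ℕ), A ∪ I.image (Fin.natAdd M)) =
      ((-1) ^ M * ∏ i : Fin M, (ζ (Fin.castAdd w i))⁻¹) *
        ∏ k ∈ I, (-(ζ (Fin.natAdd M k))⁻¹) := by
    intro I
    unfold ff chc
    have h1 : (A ∪ I.image (Fin.natAdd M)).card = M + I.card := by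
      rw [Finset.card_union_of_disjoint (hdis I), hcA,
        Finset.card_image_of_injective _ (Fin.natAdd_injective w M)]
    have h2 : ∏ i ∈ A ∪ I.image (Fin.natAdd M), (ζ i)⁻¹ =
        (∏ i : Fin M, (ζ (Fin.castAdd w i))⁻¹) * ∏ k ∈ I, (ζ (Fin.natAdd M k))⁻¹ := by
      rw [Finset.prod_union (hdis I), hA, Finset.prod_image, Finset.prod_image]
      · intro x _ y _ h
        exact Fin.natAdd_injective w M h
      · intro x _ y _ h
        exact Fin.castAdd_injective M w h
    have h3 : ∏ k ∈ I, (-(ζ (Fin.natAdd M k))⁻¹) =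
        (-1) ^ I.card * ∏ k ∈ I, (ζ (Fin.natAdd M k))⁻¹ := by
      rw [Finset.prod_neg]
    simp only [h1, h2, h3, Pi.zero_apply, pow_zero, Finset.prod_const_one, one_mul]
    rw [pow_add]
    ring
  rw [Finset.sum_congr rfl fun I _ => hterm I, ← Finset.mul_sum]
  have hpow : ∑ I : Finset (Fin w), ∏ k ∈ I, (-(ζ (Fin.natAdd M k))⁻¹) =
      ∏ k : Fin w, (1 - (ζ (Fin.natAdd M k))⁻¹) := by
    have h1 := Finset.prod_one_add (s := (Finset.univ : Finset (Fin w)))
      (f := fun k => -(ζ (Fin.natAdd M k))⁻¹)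
    rw [Finset.powerset_univ] at h1
    rw [← h1]
    refine Finset.prod_congr rfl fun k _ => ?_
    ring
  rw [hpow]
  rfl

end Pool.Agent.Tate.Ko
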