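import Pool.Agent.Lib.Tate.K.Spec

/-!
# C42 (MP_071d69_gt), T7 (Det), block K: the square of the Clifford operator
-/

set_option autoImplicit false

open Set Filter Topology

noncomputable section

namespace Pool.Agent.Tate.Ko

open Idx Toe

namespace K2Aux

/-- products of Toeplitz operators of symbols with product `1` on the sphere -/
theorem gen (h1 : Toe.S_E2) (h2 : Toe.S_To1) (h3 : Toe.S_To2) (h4 : Toe.S_C0) (h5 : Toe.S_To3)
    {M : ℕ} {J J' : Type} [Fintype J] [DecidableEq J] [Fintype J'] [DecidableEq J']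
    (f : Matrix J' J (GS M)) (g : Matrix J J' (GS M))
    (hv : ∀ z ∈ Sp M, g.map (ev z) * f.map (ev z) = 1)
    (Tf : H (In M J) →L[ℂ] H (In M J')) (Tg : H (In M J') →L[ℂ] H (In M J))
    (hf : IsTo f Tf) (hg : IsTo g Tg) : Col0 (Tg ∘L Tf - 1) := by
  obtain ⟨u, hu⟩ : ∃ u : Matrix J J (GS M), u = g * f - 1 := ⟨_, rfl⟩
  obtain ⟨U, hU⟩ := h2 M J J u
  have hT3 : IsTo (g * f) (U + 1) := by
    have := (h3 M J J).2.1 _ _ _ _ hU (h3 M J J).2.2.2
    rwa [hu, sub_add_cancel] at this
  have c1 := h5 M J J' J g f Tg Tf (U + 1) hg hf hT3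
  have hval : ∀ z ∈ Sp M, ∀ j' j, ev z (u j' j) = 0 := by
    intro z hz j' j
    have e1 : ev z ((g * f) j' j) = (g.map (ev z) * f.map (ev z)) j' j := by
      rw [← Matrix.map_mul]
      rfl
    rw [hu, Matrix.sub_apply, map_sub, e1, hv z hz]
    by_cases hj : j' = j
    · subst hj
      rw [Matrix.one_apply_eq, Matrix.one_apply_eq, map_one, sub_self]
    · rw [Matrix.one_apply_ne hj, Matrix.one_apply_ne hj, map_zero, sub_self]
  have hco : ∀ (j' j : J) (k : Fin M → ℤ), ∀ t ∈ stdSimplex ℝ (Fin M),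
      (u j' j).1.coeff k t = 0 := by
    intro j' j k t ht
    have := h1 M (u j' j) 0 (fun z hz => by rw [hval z hz j' j, norm_zero]) k t ht
    exact norm_le_zero_iff.mp this
  have c2 : Col0 U := by
    refine (h4 (In M J) (H (In M J)) (H (In M J))).2.2.2.1 U ?_
    refine Set.Finite.subset (Set.toFinite ((fun j : J => ((0 : Fin M → ℕ), j)) '' Set.univ)) ?_
    rintro ⟨a, j⟩ hne
    by_cases ha : a = 0
    · exact ⟨j, Set.mem_univ _, by rw [ha]⟩
    · refine absurd ?_ hne
      have hs : pt a ∈ stdSimplex ℝ (Fin M) := by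
        have hpos : 0 < ∑ i, a i := by
          rw [Nat.pos_iff_ne_zero]
          intro h0
          apply ha
          funext i
          exact Finset.sum_eq_zero_iff.mp h0 i (Finset.mem_univ i)
        have hpos' : (0 : ℝ) < ((∑ i, a i : ℕ) : ℝ) := by exact_mod_cast hpos
        refine ⟨fun i => div_nonneg (Nat.cast_nonneg _) hpos'.le, ?_⟩
        unfold pt
        rw [← Finset.sum_div, ← Nat.cast_sum]
        exact div_self hpos'.ne'
      apply lp.ext
      funext ⟨b, j'⟩
      rw [hU a b j j', hco j' j _ _ hs]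
      rfl
  have c3 := (h4 (In M J) (H (In M J)) (H (In M J))).1 _ _ c1 c2
  have e : Tg ∘L Tf - (U + 1) + U = Tg ∘L Tf - 1 := by abel
  rwa [e] at c3

/-- a block of a matrix, with labels -/
def blk {S : Type} (L : Type) [DecidableEq L] (p q : S → Prop) (C : Matrix S S ℂ) :
    Matrix (L × {I // p I}) (L × {I // q I}) ℂ := fun x y => if x.1 = y.1 then C x.2.1 y.2.1 else 0

/-- the product of two parts of a matrix with square `1` -/
theorem prod {S : Type} [Fintype S] [DecidableEq S] {L : Type} [Fintype L] [DecidableEq L]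
    (p q : S → Prop) [DecidablePred p] [DecidablePred q] (C : Matrix S S ℂ) (hC : C * C = 1)
    (hpq : ∀ I, ¬ q I → p I) (h0 : ∀ I' I, p I' → p I → C I' I = 0) :
    blk L p q C * blk L q p C = 1 := by
  have key : ∀ a a' : {I // p I}, ∑ b : {I // q I}, C a.1 b.1 * C b.1 a'.1 =
      if a = a' then 1 else 0 := by
    intro a a'
    have h1 := Fintype.sum_subtype_add_sum_subtype q (fun I => C a.1 I * C I a'.1)
    have h2 : ∑ b : {I // ¬ q I}, C a.1 b.1 * C b.1 a'.1 = 0 := by
      refine Finset.sum_eq_zero fun b _ => ?_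
      rw [h0 a.1 b.1 a.2 (hpq b.1 b.2), zero_mul]
    rw [h2, add_zero] at h1
    rw [h1]
    have h3 := congrFun (congrFun hC a.1) a'.1
    rw [Matrix.mul_apply] at h3
    rw [h3, Matrix.one_apply]
    simp only [Subtype.ext_iff]
  ext ⟨l, a⟩ ⟨l', a'⟩
  rw [Matrix.mul_apply, Fintype.sum_prod_type]
  simp only [blk]
  rw [Finset.sum_eq_single l]
  · by_cases hl : l = l'
    · subst hl
      simp only [if_true]
      rw [key, Matrix.one_apply]
      simp only [Prod.mk.injEq, true_and]
    · simp only [if_neg hl, mul_zero, Finset.sum_const_zero]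
      rw [Matrix.one_apply_ne]
      exact fun h => hl (congrArg Prod.fst h)
  · intro l₁ _ hl
    refine Finset.sum_eq_zero fun b _ => ?_
    rw [if_neg (Ne.symm hl), zero_mul]
  · intro h
    exact absurd (Finset.mem_univ l) h

end K2Aux

open K2Aux

theorem pK2 (h1 : Toe.S_E2) (h2 : Toe.S_To1) (h3 : Toe.S_To2) (h4 : Toe.S_C0) (h5 : Toe.S_To3)
    (h6 : S_C1) (h7 : S_Ce) : S_K2 := by
  intro M w L _ _ TE TO hE hO
  have hcl : ∀ z ∈ Sp M, cl (Fin.append z (0 : Fin w → ℂ)) * cl (Fin.append z (0 : Fin w → ℂ)) =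
      1 := by
    intro z hz
    rw [(h6 (M + w) _).1]
    have : ∑ i, ‖Fin.append z (0 : Fin w → ℂ) i‖ ^ 2 = 1 := by
      rw [Fin.sum_univ_add]
      simp only [Fin.append_left, Fin.append_right, Pi.zero_apply, norm_zero]
      rw [show ∑ i, ‖z i‖ ^ 2 = 1 from hz]
      simp
    rw [this]
    simp
  have mE : ∀ z, (clE M w L).map (ev z) =
      blk L (fun I : Finset (Fin (M + w)) => ¬ Even I.card) (fun I => Even I.card)
        (cl (Fin.append z (0 : Fin w → ℂ))) := by
    intro z
    ext x y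
    have h := congrFun (congrFun (h7 M w z) x.2.1) y.2.1
    rw [Matrix.map_apply] at h ⊢
    unfold clE blk
    split_ifs
    · exact h
    · exact map_zero _
  have mO : ∀ z, (clO M w L).map (ev z) =
      blk L (fun I : Finset (Fin (M + w)) => Even I.card) (fun I => ¬ Even I.card)
        (cl (Fin.append z (0 : Fin w → ℂ))) := by
    intro z
    ext x y
    have h := congrFun (congrFun (h7 M w z) x.2.1) y.2.1
    rw [Matrix.map_apply] at h ⊢
    unfold clO blk
    split_ifs
    · exact h
    · exact map_zero _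
  refine ⟨gen h1 h2 h3 h4 h5 (clE M w L) (clO M w L) (fun z hz => ?_) TE TO hE hO,
    gen h1 h2 h3 h4 h5 (clO M w L) (clE M w L) (fun z hz => ?_) TO TE hO hE⟩
  · rw [mE, mO]
    exact prod (fun I : Finset (Fin (M + w)) => Even I.card) (fun I => ¬ Even I.card) _
      (hcl z hz) (fun I h => not_not.mp h) fun I' I ha hb =>
        (h6 (M + w) _).2.2 I' I (iff_of_true ha hb)
  · rw [mE, mO]
    exact prod (fun I : Finset (Fin (M + w)) => ¬ Even I.card) (fun I => Even I.card) _
      (hcl z hz) (fun I h => h) fun I' I ha hb =>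
        (h6 (M + w) _).2.2 I' I (iff_of_false ha hb)

end Pool.Agent.Tate.Ko
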