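import Pool.Agent.Lib.Tate.K.Spec

set_option autoImplicit false

open Set Filter Topology

noncomputable section

namespace Pool.Agent.Tate.Ko

open Idx Toe

namespace K3Aux

theorem coeff_Zs {M : ℕ} (i : Fin M) (c : ℂ) (k : Fin M → ℤ) (t : Fin M → ℝ)
    (h : (Zs i * cG c : GS M).1.coeff k t ≠ 0) : k = Pi.single i 1 ∧ c ≠ 0 := by
  classical
  have e : (Zs i * cG c : GS M).1 = AddMonoidAlgebra.single (Pi.single i 1)
      ((fun t => (Real.sqrt (t i) : ℂ)) * fun _ => c) := by
    show (AddMonoidAlgebra.single _ _ * AddMonoidAlgebra.single _ _ : RR M) = _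
    rw [AddMonoidAlgebra.single_mul_single, add_zero]
  rw [e, AddMonoidAlgebra.coeff_single, Finsupp.single_apply] at h
  split_ifs at h with hk
  · refine ⟨hk.symm, ?_⟩
    rintro rfl
    apply h
    show _ * (0 : ℂ) = 0
    rw [mul_zero]
  · exact absurd rfl h

theorem coeff_Zc {M : ℕ} (i : Fin M) (c : ℂ) (k : Fin M → ℤ) (t : Fin M → ℝ)
    (h : (Zc i * cG c : GS M).1.coeff k t ≠ 0) : k = -Pi.single i 1 ∧ c ≠ 0 := by
  classical
  have e : (Zc i * cG c : GS M).1 = AddMonoidAlgebra.single (-Pi.single i 1)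
      ((fun t => (Real.sqrt (t i) : ℂ)) * fun _ => c) := by
    show (AddMonoidAlgebra.single _ _ * AddMonoidAlgebra.single _ _ : RR M) = _
    rw [AddMonoidAlgebra.single_mul_single, add_zero]
  rw [e, AddMonoidAlgebra.coeff_single, Finsupp.single_apply] at h
  split_ifs at h with hk
  · refine ⟨hk.symm, ?_⟩
    rintro rfl
    apply h
    show _ * (0 : ℂ) = 0
    rw [mul_zero]
  · exact absurd rfl h

theorem coeff_clS {M w : ℕ} (I' I : Finset (Fin (M + w))) (k : Fin M → ℤ) (t : Fin M → ℝ)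
    (h : (clS M w I' I).1.coeff k t ≠ 0) :
    ∃ i : Fin M, (k = Pi.single i 1 ∧ Fin.castAdd w i ∉ I ∧ I' = insert (Fin.castAdd w i) I) ∨
      (k = -Pi.single i 1 ∧ Fin.castAdd w i ∉ I' ∧ I = insert (Fin.castAdd w i) I') := by
  classical
  have e : (clS M w I' I).1.coeff k t = ∑ i : Fin M,
      ((Zs i * cG (ee (Fin.castAdd w i) I' I) : GS M).1.coeff k t +
        (Zc i * cG (ee (Fin.castAdd w i) I I') : GS M).1.coeff k t) := by
    unfold clS
    have h1 : (∑ i : Fin M, (Zs i * cG (ee (Fin.castAdd w i) I' I) +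
        Zc i * cG (ee (Fin.castAdd w i) I I')) : GS M).1 = ∑ i : Fin M,
        ((Zs i * cG (ee (Fin.castAdd w i) I' I) : GS M).1 +
        (Zc i * cG (ee (Fin.castAdd w i) I I') : GS M).1) := by
      rw [AddSubmonoidClass.coe_finsetSum]
      rfl
    rw [h1, AddMonoidAlgebra.coeff_sum, Finsupp.finsetSum_apply, Finset.sum_apply]
    rfl
  rw [e] at h
  obtain ⟨i, -, hi⟩ := Finset.exists_ne_zero_of_sum_ne_zero h
  refine ⟨i, ?_⟩
  by_cases h1 : (Zs i * cG (ee (Fin.castAdd w i) I' I) : GS M).1.coeff k t = 0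
  · rw [h1, zero_add] at hi
    right
    obtain ⟨h2, h3⟩ := coeff_Zc _ _ _ _ hi
    unfold ee at h3
    split_ifs at h3 with h4
    · exact ⟨h2, h4.1, h4.2⟩
    · exact absurd rfl h3
  · left
    obtain ⟨h2, h3⟩ := coeff_Zs _ _ _ _ h1
    unfold ee at h3
    split_ifs at h3 with h4
    · exact ⟨h2, h4.1, h4.2⟩
    · exact absurd rfl h3

theorem dg_eq {M w : ℕ} (a b : Fin M → ℕ) (I' I : Finset (Fin (M + w)))
    (h : (clS M w I' I).1.coeff (df b a) (pt a) ≠ 0) : dg b I' = dg a I := by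
  have hcard : ∀ (J : Finset (Fin (M + w))) (i : Fin M), Fin.castAdd w i ∉ J →
      (((insert (Fin.castAdd w i) J).filter fun i : Fin (M + w) => (i : ℕ) < M).card : ℤ) =
      ((J.filter fun i : Fin (M + w) => (i : ℕ) < M).card : ℤ) + 1 := by
    intro J i hi
    rw [Finset.filter_insert, if_pos (by simp), Finset.card_insert_of_notMem (by simp [hi])]
    push_cast
    rfl
  have hsum : ∑ i, (b i : ℤ) = ∑ i, (a i : ℤ) + ∑ i, df b a i := by
    rw [← Finset.sum_add_distrib]
    refine Finset.sum_congr rfl fun i _ => ?_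
    unfold df
    ring
  obtain ⟨i, ⟨h1, h2, h3⟩ | ⟨h1, h2, h3⟩⟩ := coeff_clS _ _ _ _ h
  · unfold dg
    rw [hsum, h1, h3, hcard _ _ h2, Finset.sum_pi_single' ]
    simp
  · unfold dg
    rw [hsum, h1, h3, hcard _ _ h2]
    simp
    ring

end K3Aux

open K3Aux

theorem pK3 : S_K3 := by
  intro M w L _ _ TE TO hTE hTO
  constructor
  · intro a b p q h
    rw [hTE a b p q] at h
    unfold clE at h
    split_ifs at h with h1
    · exact dg_eq a b _ _ h
    · exact absurd rfl h
  · intro a b p q h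
    rw [hTO a b q p] at h
    unfold clO at h
    split_ifs at h with h1
    · exact dg_eq a b _ _ h
    · exact absurd rfl h

end Pool.Agent.Tate.Ko
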