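import Pool.Agent.Lib.Tate.K.Spec

set_option autoImplicit false

open Set Filter Topology

noncomputable section

namespace Pool.Agent.Tate.Ko

open Idx Toe

namespace K4

/-- Inverse of `1 + A`. -/
theorem inv1 {V : Type} [NormedAddCommGroup V] [NormedSpace ℂ V] [CompleteSpace V]
    (A : V →L[ℂ] V) (h : ‖A‖ < 1) :
    ∃ U : V →L[ℂ] V, (∀ x, U (x + A x) = x) ∧ ∀ x, U x + A (U x) = x := by
  have h' : ‖-A‖ < 1 := by rwa [norm_neg]
  let u : (V →L[ℂ] V)ˣ := Units.oneSub (-A) h'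
  have hu : (u : V →L[ℂ] V) = 1 - -A := rfl
  refine ⟨(u⁻¹ : (V →L[ℂ] V)ˣ), fun x => ?_, fun x => ?_⟩
  · have h1 := congrArg (fun f : V →L[ℂ] V => f x) u.inv_mul
    have h2 : (u : V →L[ℂ] V) x = x + A x := by
      rw [hu, sub_neg_eq_add]
      rfl
    have h3 : ((u⁻¹ : (V →L[ℂ] V)ˣ) : V →L[ℂ] V) ((u : V →L[ℂ] V) x) = x := h1
    rw [h2] at h3
    exact h3
  · have h1 := congrArg (fun f : V →L[ℂ] V => f x) u.mul_inv
    have h3 : (u : V →L[ℂ] V) (((u⁻¹ : (V →L[ℂ] V)ˣ) : V →L[ℂ] V) x) = x := h1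
    rw [hu, sub_neg_eq_add] at h3
    exact h3

/-- The abstract part. -/
theorem gen {V W : Type} [NormedAddCommGroup V] [NormedSpace ℂ V] [CompleteSpace V]
    [NormedAddCommGroup W] [NormedSpace ℂ W] [CompleteSpace W]
    (g P : V →L[ℂ] V) (g' P' : W →L[ℂ] W) (TE : V →L[ℂ] W) (TO : W →L[ℂ] V)
    (hP : ∀ x, P (P x) = P x) (hP' : ∀ x, P' (P' x) = P' x)
    (hgP : ∀ x, g (P x) = P (g x)) (hgP' : ∀ x, g' (P' x) = P' (g' x))
    (hE : ∀ x, TE (P x) = P' (TE x))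
    (hTg : ∀ x, TE (g x) = g' (TE x)) (hOg : ∀ x, TO (g' x) = g (TO x))
    (h1 : ‖(TO ∘L TE - 1) ∘L P‖ < 1) (h2 : ‖(TE ∘L TO - 1) ∘L P'‖ < 1) :
    ∃ S : W →L[ℂ] V, S ∘L g' = g ∘L S ∧ S ∘L TE = P ∧ TE ∘L S = P' := by
  obtain ⟨U, hU1, hU2⟩ := inv1 _ h1
  obtain ⟨Q, hQ1, hQ2⟩ := inv1 _ h2
  have e1 : ∀ x, ((TO ∘L TE - 1) ∘L P) x = TO (TE (P x)) - P x := fun _ => rfl
  have e2 : ∀ x, ((TE ∘L TO - 1) ∘L P') x = TE (TO (P' x)) - P' x := fun _ => rfl
  simp only [e1] at hU1 hU2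
  simp only [e2] at hQ1 hQ2
  have k1 : ∀ x, TE (U x) = Q (TE x) := by
    intro x
    conv_rhs => rw [← hU2 x]
    rw [← hQ1 (TE (U x))]
    congr 1
    simp only [map_add, map_sub, hE]
  have k2 : ∀ x, U (g x) = g (U x) := by
    intro x
    conv_lhs => rw [← hU2 x]
    rw [← hU1 (g (U x))]
    congr 1
    simp only [map_add, map_sub, ← hgP, hTg, hOg]
  refine ⟨U ∘L TO ∘L P', ?_, ?_, ?_⟩
  · ext1 y
    show U (TO (P' (g' y))) = g (U (TO (P' y)))
    rw [← hgP', hOg, k2]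
  · ext1 x
    show U (TO (P' (TE x))) = P x
    have := hU1 (P x)
    rw [hP, add_sub_cancel] at this
    rw [← hE]
    exact this
  · ext1 y
    show TE (U (TO (P' y))) = P' y
    have := hQ1 (P' y)
    rw [hP', add_sub_cancel] at this
    rw [k1]
    exact this

/-- Diagonal projections. -/
theorem proj (h2 : Idx.S_L1) (h3 : Idx.S_L2) {ι : Type} (s : ι → Prop) [DecidablePred s] :
    ∃ P : H ι →L[ℂ] H ι, (∀ a, P (de a) = if s a then de a else 0) ∧
      (∀ x b, (P x : ι → ℂ) b = if s b then (x : ι → ℂ) b else 0) ∧ ∀ x, P (P x) = P x := by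
  classical
  obtain ⟨P, -, hP⟩ := h2 ι (H ι) (fun a => if s a then de a else 0) 1 zero_le_one (by
    intro a
    split_ifs
    · rw [(h3 ι ℂ).2.1 a]
    · rw [norm_zero]
      exact zero_le_one)
  have hc : ∀ x b, (P x : ι → ℂ) b = if s b then (x : ι → ℂ) b else 0 := by
    intro x b
    let v : H ι →L[ℂ] ℂ := lp.evalCLM ℂ (fun _ : ι => ℂ) 1 b
    have hv : ∀ y : H ι, v y = (y : ι → ℂ) b := fun _ => rfl
    have key : v ∘L P = (if s b then (1 : ℂ) else 0) • v := by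
      refine (h3 ι ℂ).2.2 _ _ fun a => ?_
      show v (P (de a)) = (if s b then (1 : ℂ) else 0) • v (de a)
      rw [hP, hv, hv]
      by_cases hab : b = a
      · subst hab
        by_cases hs : s b
        · rw [if_pos hs, if_pos hs, one_smul]
        · rw [if_neg hs, if_neg hs, zero_smul]
          rfl
      · have hz : ((de a : H ι) : ι → ℂ) b = 0 := by
          unfold de
          exact lp.single_apply_ne (E := fun _ : ι => ℂ) 1 a (1 : ℂ) hab
        rw [hz, smul_zero]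
        by_cases hs : s a
        · rw [if_pos hs, hz]
        · rw [if_neg hs]
          rfl
    have := congrArg (fun f : H ι →L[ℂ] ℂ => f x) key
    have h' : v (P x) = (if s b then (1 : ℂ) else 0) • v x := this
    rw [hv, hv] at h'
    rw [h']
    split_ifs
    · rw [one_smul]
    · rw [zero_smul]
  refine ⟨P, hP, hc, fun x => ?_⟩
  refine lp.ext (funext fun b => ?_)
  rw [hc, hc]
  split_ifs <;> rfl

/-- Norm of a product with a projection. -/
theorem nrm (h3 : Idx.S_L2) {ι E : Type} [NormedAddCommGroup E] [NormedSpace ℂ E] (s : ι → Prop)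
    [DecidablePred s] (P : H ι →L[ℂ] H ι) (hP : ∀ a, P (de a) = if s a then de a else 0)
    (A : H ι →L[ℂ] E) (hA : ∀ a, s a → ‖A (de a)‖ ≤ 1 / 2) : ‖A ∘L P‖ < 1 := by
  refine lt_of_le_of_lt ((h3 ι E).1 (A ∘L P) (1 / 2) (by norm_num) fun a => ?_) (by norm_num)
  show ‖A (P (de a))‖ ≤ 1 / 2
  rw [hP]
  split_ifs with hs
  · exact hA a hs
  · rw [map_zero, norm_zero]
    norm_num

/-- Commuting with a diagonal operator. -/
theorem cmm (h3 : Idx.S_L2) {ι : Type} (s : ι → Prop) [DecidablePred s] (P : H ι →L[ℂ] H ι)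
    (hP : ∀ a, P (de a) = if s a then de a else 0) (g : H ι →L[ℂ] H ι) (c : ι → ℂ)
    (hg : ∀ a, g (de a) = c a • de a) (x : H ι) : g (P x) = P (g x) := by
  have key : g ∘L P = P ∘L g := by
    refine (h3 ι (H ι)).2.2 _ _ fun a => ?_
    show g (P (de a)) = P (g (de a))
    rw [hg, map_smul, hP]
    split_ifs
    · exact hg a
    · rw [map_zero, smul_zero]
  exact congrArg (fun f : H ι →L[ℂ] H ι => f x) key

/-- The trace of the complement of a projection. -/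
theorem trc (h5 : Idx.S_L7) {ι : Type} (s : ι → Prop) [DecidablePred s] (P : H ι →L[ℂ] H ι)
    (hP : ∀ a, P (de a) = if s a then de a else 0) (g : H ι →L[ℂ] H ι) (c : ι → ℂ)
    (hg : ∀ a, g (de a) = c a • de a) (t : Finset ι) (ht : ∀ a, a ∈ t ↔ ¬ s a) :
    FR ((1 - P : H ι →L[ℂ] H ι) : H ι →ₗ[ℂ] H ι) ∧
      ftr ((g ∘L (1 - P) : H ι →L[ℂ] H ι) : H ι →ₗ[ℂ] H ι) = ∑ a ∈ t, c a := by
  constructor
  · refine (h5 ι t (fun _ => 1) (1 - P) (fun a ha => ?_) fun a ha => ?_).1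
    · show de a - P (de a) = (1 : ℂ) • de a
      rw [hP, if_neg ((ht a).1 ha), sub_zero, one_smul]
    · show de a - P (de a) = 0
      rw [hP, if_pos (not_not.1 fun h => ha ((ht a).2 h)), sub_self]
  · refine (h5 ι t c (g ∘L (1 - P)) (fun a ha => ?_) fun a ha => ?_).2
    · show g (de a - P (de a)) = c a • de a
      rw [hP, if_neg ((ht a).1 ha), sub_zero, hg]
    · show g (de a - P (de a)) = 0
      rw [hP, if_pos (not_not.1 fun h => ha ((ht a).2 h)), sub_self, map_zero]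

/-- Exchange of projections. -/
theorem exch (h3 : Idx.S_L2) {ι κ : Type} (s : ι → Prop) [DecidablePred s] (s' : κ → Prop)
    [DecidablePred s'] (P : H ι →L[ℂ] H ι) (P' : H κ →L[ℂ] H κ)
    (hP : ∀ a, P (de a) = if s a then de a else 0)
    (hP' : ∀ x b, (P' x : κ → ℂ) b = if s' b then (x : κ → ℂ) b else 0)
    (T : H ι →L[ℂ] H κ) (hT : ∀ a b, (T (de a) : κ → ℂ) b ≠ 0 → (s' b ↔ s a)) (x : H ι) :
    T (P x) = P' (T x) := by
  have key : T ∘L P = P' ∘L T := by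
    refine (h3 ι (H κ)).2.2 _ _ fun a => ?_
    show T (P (de a)) = P' (T (de a))
    refine lp.ext (funext fun b => ?_)
    rw [hP', hP]
    by_cases h0 : (T (de a) : κ → ℂ) b = 0
    · rw [h0]
      have : (T (if s a then de a else 0) : κ → ℂ) b = 0 := by
        split_ifs
        · exact h0
        · rw [map_zero]
          rfl
      rw [this]
      split_ifs <;> rfl
    · have h1 := hT a b h0
      by_cases hs : s a
      · rw [if_pos hs, if_pos (h1.2 hs)]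
      · rw [if_neg hs, if_neg fun h => hs (h1.1 h), map_zero]
        rfl
  exact congrArg (fun f : H ι →L[ℂ] H κ => f x) key

/-- Sums over the index set with labels. -/
theorem lbl {M w : ℕ} {L : Type} [Fintype L] (lam : L → ℂ) (n : ℤ)
    (s : Finset ((Fin M → ℕ) × Finset (Fin (M + w)))) (hs : ∀ p, p ∈ s ↔ dg p.1 p.2 < n)
    (Q : Finset (Fin (M + w)) → Prop) [DecidablePred Q]
    (F : (Fin M → ℕ) → Finset (Fin (M + w)) → ℂ) :
    ∃ t : Finset (In M (L × {I : Finset (Fin (M + w)) // Q I})),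
      (∀ p, p ∈ t ↔ dg p.1 p.2.2.1 < n) ∧
      ∑ p ∈ t, F p.1 p.2.2.1 * lam p.2.1 =
        (∑ l, lam l) * ∑ p ∈ s.filter (fun p => Q p.2), F p.1 p.2 := by
  classical
  let f : In M (L × {I : Finset (Fin (M + w)) // Q I}) →
      L × ((Fin M → ℕ) × Finset (Fin (M + w))) := fun p => (p.2.1, (p.1, p.2.2.1))
  have hf : Function.Injective f := by
    rintro ⟨a, l, I⟩ ⟨a', l', I'⟩ h
    have h1 : l = l' := congrArg Prod.fst h
    have h2 : a = a' := congrArg (fun q => q.2.1) h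
    have h3 : I.1 = I'.1 := congrArg (fun q => q.2.2) h
    have h4 : I = I' := Subtype.ext h3
    subst h1 h2 h4
    rfl
  let t := (Finset.univ ×ˢ s).preimage f hf.injOn
  have ht : ∀ p, p ∈ t ↔ dg p.1 p.2.2.1 < n := by
    intro p
    rw [Finset.mem_preimage, Finset.mem_product, hs]
    simp [f]
  refine ⟨t, ht, ?_⟩
  rw [Finset.sum_mul_sum, ← Finset.sum_product']
  refine Finset.sum_nbij f ?_ hf.injOn ?_ ?_
  · intro p hp
    rw [Finset.mem_product, Finset.mem_filter, hs]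
    exact ⟨Finset.mem_univ _, (ht p).1 hp, p.2.2.2⟩
  · rintro ⟨l, a, I⟩ hp
    have hp' := Finset.mem_coe.1 hp
    rw [Finset.mem_product, Finset.mem_filter, hs] at hp'
    obtain ⟨-, h1, h2⟩ := hp'
    exact ⟨(a, (l, ⟨I, h2⟩)), Finset.mem_coe.2 ((ht _).2 h1), rfl⟩
  · intro p _
    exact mul_comm _ _

end K4

open K4

theorem pK4 (_h1 : Idx.S_T2) (h2 : Idx.S_L1) (h3 : Idx.S_L2) (_h4 : Idx.S_L3) (h5 : Idx.S_L7)
    (h6 : Toe.S_To1) (h7 : Toe.S_To5) (h8 : S_Cq) (h9 : S_K1) (h10 : S_K2) (h11 : S_K3) :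
    S_K4 := by
  classical
  intro M w L _ _ lam ζ TE g g' hM hζ hlam hTE hg hg'
  obtain ⟨TO, hTO⟩ := h6 M (L × Od (M + w)) (L × Ev (M + w)) (clO M w L)
  have hζ0 : ∀ i, ζ i ≠ 0 := by
    intro i h
    have := hζ i
    rw [h] at this
    norm_num at this
  obtain ⟨q1, q2⟩ := h8 M w L lam ζ hζ
  have hTg : TE ∘L g = g' ∘L TE := h7 M _ _ _ _ _ _ TE g g' (fun i => hζ0 _) q1 hTE hg hg'
  have hOg : TO ∘L g' = g ∘L TO := h7 M _ _ _ _ _ _ TO g' g (fun i => hζ0 _) q2 hTO hg' hg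
  obtain ⟨c1, c2⟩ := h10 M w L TE TO hTE hTO
  obtain ⟨d1, -⟩ := h11 M w L TE TO hTE hTO
  -- the threshold
  have hb : ∀ {κ : Type} (A : Set κ) (f : κ → ℤ), A.Finite → ∃ n : ℤ, ∀ p ∈ A, f p < n := by
    intro κ A f hA
    obtain ⟨m, hm⟩ := (hA.image f).bddAbove
    exact ⟨m + 1, fun p hp => Int.lt_add_one_of_le (hm (mem_image_of_mem f hp))⟩
  obtain ⟨n1, hn1⟩ := hb _ (fun p : In M (L × Ev (M + w)) => dg p.1 p.2.2.1) (c1 (1 / 2) (by norm_num))
  obtain ⟨n2, hn2⟩ := hb _ (fun p : In M (L × Od (M + w)) => dg p.1 p.2.2.1) (c2 (1 / 2) (by norm_num))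
  let n : ℤ := max (max n1 n2) (-(M : ℤ) + 1)
  have hnM : -(M : ℤ) < n := lt_of_lt_of_le (by omega) (le_max_right _ _)
  have hnn1 : n1 ≤ n := le_trans (le_max_left _ _) (le_max_left _ _)
  have hnn2 : n2 ≤ n := le_trans (le_max_right _ _) (le_max_left _ _)
  obtain ⟨s, hs, hsum⟩ := h9 M w ζ n hζ0 hnM
  obtain ⟨P, hP1, hP2, hP3⟩ := proj h2 h3 (fun p : In M (L × Ev (M + w)) => ¬ dg p.1 p.2.2.1 < n)
  obtain ⟨P', hP1', hP2', hP3'⟩ :=
    proj h2 h3 (fun p : In M (L × Od (M + w)) => ¬ dg p.1 p.2.2.1 < n)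
  have hE : ∀ x, TE (P x) = P' (TE x) := by
    refine exch h3 (fun p : In M (L × Ev (M + w)) => ¬ dg p.1 p.2.2.1 < n)
      (fun p : In M (L × Od (M + w)) => ¬ dg p.1 p.2.2.1 < n) P P' hP1 hP2' TE ?_
    rintro ⟨a, p⟩ ⟨b, q⟩ h
    have := d1 a b p q h
    dsimp only
    rw [this]
  obtain ⟨S, s1, s2, s3⟩ := gen g P g' P' TE TO hP3 hP3' (cmm h3 _ P hP1 g _ hg)
    (cmm h3 _ P' hP1' g' _ hg') hE (fun x => congrArg (fun f => f x) hTg)
    (fun x => congrArg (fun f => f x) hOg)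
    (nrm h3 _ P hP1 (TO ∘L TE - 1) fun a ha => by
      by_contra hc
      exact ha (lt_of_lt_of_le (hn1 a (not_le.1 hc)) hnn1))
    (nrm h3 _ P' hP1' (TE ∘L TO - 1) fun a ha => by
      by_contra hc
      exact ha (lt_of_lt_of_le (hn2 a (not_le.1 hc)) hnn2))
  obtain ⟨tE, htE, hsE⟩ := lbl lam n s hs (fun I => Even I.card)
    (fun a I => (∏ i : Fin M, ζ (Fin.castAdd w i) ^ a i) * chc ζ I)
  obtain ⟨tO, htO, hsO⟩ := lbl lam n s hs (fun I => ¬ Even I.card)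
    (fun a I => (∏ i : Fin M, ζ (Fin.castAdd w i) ^ a i) * chc ζ I)
  obtain ⟨f1, t1⟩ := trc h5 _ P hP1 g _ hg tE (fun a => by rw [htE, not_not])
  obtain ⟨f2, t2⟩ := trc h5 _ P' hP1' g' _ hg' tO (fun a => by rw [htO, not_not])
  refine ⟨S, ⟨hTg, s1, ?_, ?_⟩, ?_⟩
  · rw [s2]
    exact f1
  · rw [s3]
    exact f2
  · unfold ind
    rw [s2, s3, t1, t2, ← hsum, ← Finset.sum_filter_add_sum_filter_not s (fun p => Even p.2.card),
      mul_add]
    have a1 : ∑ a ∈ tE, chr (fun i => ζ (Fin.castAdd w i)) (chE lam ζ) a =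
        ∑ p ∈ tE, ((∏ i : Fin M, ζ (Fin.castAdd w i) ^ p.1 i) * chc ζ p.2.2.1) * lam p.2.1 := by
      refine Finset.sum_congr rfl fun p _ => ?_
      unfold chr chE
      ring
    have a2 : ∑ a ∈ tO, chr (fun i => ζ (Fin.castAdd w i)) (chO lam ζ) a =
        ∑ p ∈ tO, ((∏ i : Fin M, ζ (Fin.castAdd w i) ^ p.1 i) * chc ζ p.2.2.1) * lam p.2.1 := by
      refine Finset.sum_congr rfl fun p _ => ?_
      unfold chr chO
      ring
    rw [a1, a2, hsE, hsO, sub_eq_add_neg, ← mul_neg, ← Finset.sum_neg_distrib]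
    congr 2
    · refine Finset.sum_congr rfl fun p hp => ?_
      rw [(Finset.mem_filter.1 hp).2.neg_one_pow, one_mul]
    · refine Finset.sum_congr rfl fun p hp => ?_
      rw [(Nat.not_even_iff_odd.1 (Finset.mem_filter.1 hp).2).neg_one_pow, neg_one_mul]

end Pool.Agent.Tate.Ko
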