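import Pool.Agent.Lib.Tate.K.Spec

/-!
# C42 (MP_071d69_gt), K/K5: the index of `phS` (helper59)
-/

set_option autoImplicit false

open Set Filter Topology

noncomputable section

namespace Pool.Agent.Tate.Ko

open Idx Toe

namespace K5aux

/-! ### Constant symbols -/

theorem cG_mul {M : ℕ} (c d : ℂ) : (cG (c * d) : GS M) = cG c * cG d := by
  refine Subtype.ext ?_
  show (AddMonoidAlgebra.single 0 (fun _ => c * d) : RR M) =
    AddMonoidAlgebra.single 0 (fun _ => c) * AddMonoidAlgebra.single 0 (fun _ => d)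
  rw [AddMonoidAlgebra.single_mul_single, add_zero]
  rfl

theorem cG_add {M : ℕ} (c d : ℂ) : (cG (c + d) : GS M) = cG c + cG d := by
  refine Subtype.ext ?_
  show (AddMonoidAlgebra.single 0 (fun _ => c + d) : RR M) =
    AddMonoidAlgebra.single 0 (fun _ => c) + AddMonoidAlgebra.single 0 (fun _ => d)
  rw [← AddMonoidAlgebra.single_add]
  rfl

theorem cG_zero {M : ℕ} : (cG 0 : GS M) = 0 := by
  refine Subtype.ext ?_
  show (AddMonoidAlgebra.single 0 (0 : (Fin M → ℝ) → ℂ) : RR M) = 0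
  exact AddMonoidAlgebra.single_zero 0

theorem cG_one {M : ℕ} : (cG 1 : GS M) = 1 := rfl

/-- The constants, as a ring homomorphism. -/
def cH (M : ℕ) : ℂ →+* GS M where
  toFun := cG
  map_one' := cG_one
  map_mul' := cG_mul
  map_zero' := cG_zero
  map_add' := cG_add

theorem coeff_cG {M : ℕ} (c : ℂ) (k : Fin M → ℤ) (h : (cG c : GS M).1.coeff k ≠ 0) :
    k = 0 ∧ c ≠ 0 := by
  classical
  have h' : (AddMonoidAlgebra.single 0 (fun _ => c) : RR M).coeff k ≠ 0 := h
  rw [AddMonoidAlgebra.coeff_single, Finsupp.single_apply] at h'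
  by_cases hk : (0 : Fin M → ℤ) = k
  · refine ⟨hk.symm, fun hc => ?_⟩
    subst hc
    rw [if_pos hk] at h'
    exact h' rfl
  · rw [if_neg hk] at h'
    exact absurd rfl h'

/-! ### The bijection -/

/-- Splitting of the labels. -/
def bj (M : ℕ) {L X : Type} [DecidableEq L] (L₀ : Finset L) :
    In M (L × X) ≃ In M ({l // l ∈ L₀} × X) ⊕ In M ({l // l ∉ L₀} × X) where
  toFun p := if h : p.2.1 ∈ L₀ then Sum.inl (p.1, (⟨p.2.1, h⟩, p.2.2))
    else Sum.inr (p.1, (⟨p.2.1, h⟩, p.2.2))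
  invFun s := Sum.elim (fun q => (q.1, (q.2.1.1, q.2.2))) (fun q => (q.1, (q.2.1.1, q.2.2))) s
  left_inv := by
    rintro ⟨a, l, x⟩
    by_cases h : l ∈ L₀ <;> simp [h]
  right_inv := by
    rintro (⟨a, ⟨l, h⟩, x⟩ | ⟨a, ⟨l, h⟩, x⟩) <;> simp [h]

theorem bj_pos {M : ℕ} {L X : Type} [DecidableEq L] (L₀ : Finset L) (a : Fin M → ℕ)
    (l : {l // l ∈ L₀}) (x : X) : bj M L₀ (a, (l.1, x)) = Sum.inl (a, (l, x)) := by
  unfold bj
  simp

theorem bj_neg {M : ℕ} {L X : Type} [DecidableEq L] (L₀ : Finset L) (a : Fin M → ℕ)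
    (l : {l // l ∉ L₀}) (x : X) : bj M L₀ (a, (l.1, x)) = Sum.inr (a, (l, x)) := by
  have := l.2
  unfold bj
  simp [this]

theorem de_apply {ι : Type} (p q : ι) [Decidable (q = p)] :
    (de p : H ι) q = if q = p then 1 else 0 := by
  classical
  unfold de
  by_cases h : q = p
  · rw [if_pos h]
    subst h
    rw [lp.single_apply_self]
  · rw [if_neg h, lp.single_apply_ne]
    exact h

/-- The coordinate functional. -/
def cf {ι : Type} (i : ι) : H ι →L[ℂ] ℂ := lp.evalCLM ℂ (fun _ : ι => ℂ) 1 i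

theorem cf_apply {ι : Type} (i : ι) (x : H ι) : cf i x = (x : ι → ℂ) i := rfl

/-- The splitting of `H`. -/
theorem exE (h5 : Idx.S_L2) (h6 : Idx.S_L5) (h7 : Idx.S_L6) (M : ℕ) {L X : Type} [DecidableEq L]
    (L₀ : Finset L) : ∃ E : H (In M (L × X)) ≃L[ℂ] H (In M ({l // l ∈ L₀} × X)) ×
      H (In M ({l // l ∉ L₀} × X)),
      (∀ (a : Fin M → ℕ) (l : {l // l ∈ L₀}) (x : X),
        E (de (a, (l.1, x))) = (de (a, (l, x)), 0)) ∧
      (∀ (a : Fin M → ℕ) (l : {l // l ∉ L₀}) (x : X),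
        E (de (a, (l.1, x))) = (0, de (a, (l, x)))) ∧
      (∀ (v : H (In M (L × X))) (b : Fin M → ℕ) (l : {l // l ∈ L₀}) (x : X),
        ((E v).1 : In M ({l // l ∈ L₀} × X) → ℂ) (b, (l, x)) =
          (v : In M (L × X) → ℂ) (b, (l.1, x))) ∧
      ∀ (v : H (In M (L × X))) (b : Fin M → ℕ) (l : {l // l ∉ L₀}) (x : X),
        ((E v).2 : In M ({l // l ∉ L₀} × X) → ℂ) (b, (l, x)) =
          (v : In M (L × X) → ℂ) (b, (l.1, x)) := by
  classical
  obtain ⟨E1, hE1⟩ := h7 _ _ (bj M (X := X) L₀)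
  obtain ⟨E2, hE2, hE3⟩ := h6 (In M ({l // l ∈ L₀} × X)) (In M ({l // l ∉ L₀} × X))
  have k1 : ∀ (a : Fin M → ℕ) (l : {l // l ∈ L₀}) (x : X),
      (E1.trans E2) (de (a, (l.1, x))) = (de (a, (l, x)), 0) := by
    intro a l x
    rw [ContinuousLinearEquiv.trans_apply, hE1, bj_pos, hE2]
  have k2 : ∀ (a : Fin M → ℕ) (l : {l // l ∉ L₀}) (x : X),
      (E1.trans E2) (de (a, (l.1, x))) = (0, de (a, (l, x))) := by
    intro a l x
    rw [ContinuousLinearEquiv.trans_apply, hE1, bj_neg, hE3]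
  refine ⟨E1.trans E2, k1, k2, ?_, ?_⟩
  · intro v b l x
    have key : (cf (b, (l, x)) ∘L ContinuousLinearMap.fst ℂ _ _) ∘L
        ((E1.trans E2 : H (In M (L × X)) ≃L[ℂ] H (In M ({l // l ∈ L₀} × X)) ×
          H (In M ({l // l ∉ L₀} × X))) : H (In M (L × X)) →L[ℂ] H (In M ({l // l ∈ L₀} × X)) ×
          H (In M ({l // l ∉ L₀} × X))) = cf (b, (l.1, x)) := by
      refine (h5 _ _).2.2 _ _ ?_
      rintro ⟨a, m, y⟩
      show ((((E1.trans E2) (de (a, (m, y)))).1 : In M ({l // l ∈ L₀} × X) → ℂ)) (b, (l, x)) =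
        (de (a, (m, y)) : In M (L × X) → ℂ) (b, (l.1, x))
      by_cases hm : m ∈ L₀
      · have := k1 a ⟨m, hm⟩ y
        rw [this]
        show (de (a, (⟨m, hm⟩, y)) : In M ({l // l ∈ L₀} × X) → ℂ) (b, (l, x)) = _
        rw [de_apply, de_apply]
        have hiff : ((b, (l, x)) = ((a, (⟨m, hm⟩, y)) : In M ({l // l ∈ L₀} × X))) ↔
            ((b, (l.1, x)) = ((a, (m, y)) : In M (L × X))) := by
          simp only [Prod.mk.injEq, Subtype.ext_iff]
        simp only [hiff]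
      · have := k2 a ⟨m, hm⟩ y
        rw [this]
        show (0 : ℂ) = _
        rw [de_apply, if_neg]
        intro h
        simp only [Prod.mk.injEq] at h
        exact hm (h.2.1 ▸ l.2)
    exact congrArg (fun F : H (In M (L × X)) →L[ℂ] ℂ => F v) key
  · intro v b l x
    have key : (cf (b, (l, x)) ∘L ContinuousLinearMap.snd ℂ _ _) ∘L
        ((E1.trans E2 : H (In M (L × X)) ≃L[ℂ] H (In M ({l // l ∈ L₀} × X)) ×
          H (In M ({l // l ∉ L₀} × X))) : H (In M (L × X)) →L[ℂ] H (In M ({l // l ∈ L₀} × X)) ×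
          H (In M ({l // l ∉ L₀} × X))) = cf (b, (l.1, x)) := by
      refine (h5 _ _).2.2 _ _ ?_
      rintro ⟨a, m, y⟩
      show ((((E1.trans E2) (de (a, (m, y)))).2 : In M ({l // l ∉ L₀} × X) → ℂ)) (b, (l, x)) =
        (de (a, (m, y)) : In M (L × X) → ℂ) (b, (l.1, x))
      by_cases hm : m ∈ L₀
      · have := k1 a ⟨m, hm⟩ y
        rw [this]
        show (0 : ℂ) = _
        rw [de_apply, if_neg]
        intro h
        simp only [Prod.mk.injEq] at h
        exact l.2 (h.2.1 ▸ hm)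
      · have := k2 a ⟨m, hm⟩ y
        rw [this]
        show (de (a, (⟨m, hm⟩, y)) : In M ({l // l ∉ L₀} × X) → ℂ) (b, (l, x)) = _
        rw [de_apply, de_apply]
        have hiff : ((b, (l, x)) = ((a, (⟨m, hm⟩, y)) : In M ({l // l ∉ L₀} × X))) ↔
            ((b, (l.1, x)) = ((a, (m, y)) : In M (L × X))) := by
          simp only [Prod.mk.injEq, Subtype.ext_iff]
        simp only [hiff]
    exact congrArg (fun F : H (In M (L × X)) →L[ℂ] ℂ => F v) key

/-! ### The constant matrices -/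

/-- `cl e`, odd to even. -/
def mC {N : ℕ} (L : Type) [DecidableEq L] (e : Fin N → ℂ) : Matrix (L × Ev N) (L × Od N) ℂ :=
  fun p q => if p.1 = q.1 then cl e p.2.1 q.2.1 else 0

/-- `cl e`, even to odd. -/
def mD {N : ℕ} (L : Type) [DecidableEq L] (e : Fin N → ℂ) : Matrix (L × Od N) (L × Ev N) ℂ :=
  fun p q => if p.1 = q.1 then cl e p.2.1 q.2.1 else 0

/-- Sums over odd sets. -/
theorem sum_od {N : ℕ} {R : Type} [AddCommMonoid R] (f : Finset (Fin N) → R)
    (h : ∀ I, Even I.card → f I = 0) : ∑ I : Od N, f I.1 = ∑ I, f I := by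
  classical
  have h1 : ∑ I ∈ Finset.univ.filter (fun I : Finset (Fin N) => ¬ Even I.card), f I =
      ∑ I : Od N, f I.1 :=
    Finset.sum_subtype (p := fun I : Finset (Fin N) => ¬ Even I.card) _ (fun I => by simp) f
  rw [← h1, Finset.sum_filter]
  refine Finset.sum_congr rfl fun I _ => ?_
  by_cases hI : Even I.card
  · rw [if_neg (by simpa using hI), h I hI]
  · rw [if_pos hI]

/-- Sums over even sets. -/
theorem sum_ev {N : ℕ} {R : Type} [AddCommMonoid R] (f : Finset (Fin N) → R)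
    (h : ∀ I, ¬ Even I.card → f I = 0) : ∑ I : Ev N, f I.1 = ∑ I, f I := by
  classical
  have h1 : ∑ I ∈ Finset.univ.filter (fun I : Finset (Fin N) => Even I.card), f I =
      ∑ I : Ev N, f I.1 :=
    Finset.sum_subtype (p := fun I : Finset (Fin N) => Even I.card) _ (fun I => by simp) f
  rw [← h1, Finset.sum_filter]
  refine Finset.sum_congr rfl fun I _ => ?_
  by_cases hI : Even I.card
  · rw [if_pos hI]
  · rw [if_neg hI, h I hI]

/-- Sums over labelled sets. -/
theorem sum_lab {L X R : Type} [Fintype L] [DecidableEq L] [Fintype X] [AddCommMonoid R] (l : L)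
    (f : L × X → R) (h : ∀ m x, l ≠ m → f (m, x) = 0) : ∑ p, f p = ∑ x, f (l, x) := by
  rw [Fintype.sum_prod_type, Finset.sum_eq_single l]
  · intro m _ hm
    exact Finset.sum_eq_zero fun x _ => h m x (Ne.symm hm)
  · intro hl
    exact absurd (Finset.mem_univ l) hl

theorem cl_sq (h12 : S_C1) {N : ℕ} (e : Fin N → ℂ) (he : ∑ i, ‖e i‖ ^ 2 = 1)
    (I' I : Finset (Fin N)) : ∑ K, cl e I' K * cl e K I = if I' = I then 1 else 0 := by
  have := congrFun (congrFun (h12 N e).1 I') I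
  rw [Matrix.mul_apply] at this
  rw [this, he, Matrix.smul_apply, Matrix.one_apply]
  simp

theorem mC_mD (h12 : S_C1) {N : ℕ} (L : Type) [Fintype L] [DecidableEq L] (e : Fin N → ℂ)
    (he : ∑ i, ‖e i‖ ^ 2 = 1) : mC L e * mD L e = 1 := by
  ext p q
  rw [Matrix.mul_apply, sum_lab p.1 _ (fun m x hm => by
    unfold mC
    rw [if_neg hm, zero_mul])]
  have h1 : ∀ x : Od N, mC L e p (p.1, x) * mD L e (p.1, x) q =
      if p.1 = q.1 then cl e p.2.1 x.1 * cl e x.1 q.2.1 else 0 := by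
    intro x
    unfold mC mD
    rw [if_pos rfl]
    split_ifs <;> simp
  rw [Finset.sum_congr rfl fun x _ => h1 x, Matrix.one_apply]
  by_cases hpq : p.1 = q.1
  · simp only [if_pos hpq]
    rw [sum_od (fun I => cl e p.2.1 I * cl e I q.2.1), cl_sq h12 e he]
    · have : p.2.1 = q.2.1 ↔ p = q := by
        rw [Prod.ext_iff, Subtype.ext_iff]
        simp [hpq]
      simp only [this]
    · intro I hI
      rw [(h12 N e).2.2 p.2.1 I (by simp [hI, p.2.2]), zero_mul]
  · simp only [if_neg hpq]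
    rw [if_neg (fun h => hpq (by rw [h]))]
    exact Finset.sum_const_zero

theorem mD_mC (h12 : S_C1) {N : ℕ} (L : Type) [Fintype L] [DecidableEq L] (e : Fin N → ℂ)
    (he : ∑ i, ‖e i‖ ^ 2 = 1) : mD L e * mC L e = 1 := by
  ext p q
  rw [Matrix.mul_apply, sum_lab p.1 _ (fun m x hm => by
    unfold mD
    rw [if_neg hm, zero_mul])]
  have h1 : ∀ x : Ev N, mD L e p (p.1, x) * mC L e (p.1, x) q =
      if p.1 = q.1 then cl e p.2.1 x.1 * cl e x.1 q.2.1 else 0 := by
    intro x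
    unfold mC mD
    rw [if_pos rfl]
    split_ifs <;> simp
  rw [Finset.sum_congr rfl fun x _ => h1 x, Matrix.one_apply]
  by_cases hpq : p.1 = q.1
  · simp only [if_pos hpq]
    rw [sum_ev (fun I => cl e p.2.1 I * cl e I q.2.1), cl_sq h12 e he]
    · have : p.2.1 = q.2.1 ↔ p = q := by
        rw [Prod.ext_iff, Subtype.ext_iff]
        simp [hpq]
      simp only [this]
    · intro I hI
      rw [(h12 N e).2.2 p.2.1 I (by
        have := p.2.2
        simp [hI, this]), zero_mul]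
  · simp only [if_neg hpq]
    rw [if_neg (fun h => hpq (by rw [h]))]
    exact Finset.sum_const_zero

/-- The symbol for the labels in `L₀`. -/
def fA (M w : ℕ) (L : Type) [DecidableEq L] (e : Fin (M + w) → ℂ) :
    Matrix (L × Ev (M + w)) (L × Ev (M + w)) (GS M) := fun p q =>
  if p.1 = q.1 then ∑ I, cG (cl e p.2.1 I) * clS M w I q.2.1 else 0

theorem fA_eq (h12 : S_C1) (M w : ℕ) (L : Type) [Fintype L] [DecidableEq L]
    (e : Fin (M + w) → ℂ) : (mC L e).map (cG : ℂ → GS M) * clE M w L = fA M w L e := by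
  ext1 p q
  rw [Matrix.mul_apply, sum_lab p.1 _ (fun m x hm => by
    rw [Matrix.map_apply]
    unfold mC
    rw [if_neg hm, cG_zero, zero_mul])]
  have h1 : ∀ x : Od (M + w), (mC L e).map (cG : ℂ → GS M) p (p.1, x) * clE M w L (p.1, x) q =
      if p.1 = q.1 then cG (cl e p.2.1 x.1) * clS M w x.1 q.2.1 else 0 := by
    intro x
    rw [Matrix.map_apply]
    unfold mC clE
    rw [if_pos rfl]
    split_ifs <;> simp
  rw [Finset.sum_congr rfl fun x _ => h1 x]
  unfold fA
  by_cases hpq : p.1 = q.1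
  · simp only [if_pos hpq]
    rw [sum_od (fun I => cG (cl e p.2.1 I) * clS M w I q.2.1)]
    intro I hI
    rw [(h12 _ e).2.2 p.2.1 I (by simp [hI, p.2.2]), cG_zero, zero_mul]
  · simp only [if_neg hpq]
    exact Finset.sum_const_zero

theorem map_cG_mul {M : ℕ} {J J' J'' : Type} [Fintype J'] (A : Matrix J J' ℂ)
    (B : Matrix J' J'' ℂ) : (A * B).map (cG : ℂ → GS M) = A.map (cG : ℂ → GS M) *
      B.map (cG : ℂ → GS M) :=
  Matrix.map_mul (f := cH M)

theorem map_cG_one {M : ℕ} {J : Type} [DecidableEq J] :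
    (1 : Matrix J J ℂ).map (cG : ℂ → GS M) = 1 :=
  Matrix.map_one (cH M) (map_zero _) (map_one _)

end K5aux

open K5aux in
theorem pK5 (h1 : Idx.S_I2) (h2 : Idx.S_I4) (h3 : Idx.S_I5) (h4 : Idx.S_I8) (h5 : Idx.S_L2)
    (h6 : Idx.S_L5) (h7 : Idx.S_L6) (h8 : Toe.S_To1) (h9 : Toe.S_To2) (h10 : Toe.S_To5)
    (h11 : Toe.S_Dg) (h12 : S_C1) (h13 : S_Cg) (h14 : S_K4) (h15 : S_Kc) : S_K5 := by
  classical
  intro M w L _ _ L₀ lam ζ e T g hM hζ hlam hlam1 he hζe hT hg
  have hζ0 : ∀ i, ζ i ≠ 0 := by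
    intro i h
    have := hζ i
    rw [h] at this
    norm_num at this
  set ζ' : Fin M → ℂ := fun i => ζ (Fin.castAdd w i) with hζ'
  have hζ'4 : ∀ i, ζ' i ^ 4 = 1 := fun i => hζ _
  have hζ'0 : ∀ i, ζ' i ≠ 0 := fun i => hζ0 _
  obtain ⟨E, hE1, hE2, hE3, hE4⟩ := exE h5 h6 h7 M (X := Ev (M + w)) L₀
  have hchc : ∀ I : Finset (Fin (M + w)), chc ζ I ^ 4 = 1 := by
    intro I
    unfold chc
    rw [← Finset.prod_pow]
    refine Finset.prod_eq_one fun i _ => ?_
    rw [inv_pow, hζ, inv_one]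
  -- the characters
  set lam' : {l // l ∈ L₀} → ℂ := fun l => lam l.1 with hlam'
  set lam'' : {l // l ∉ L₀} → ℂ := fun l => lam l.1 with hlam''
  obtain ⟨gE, hgE⟩ := (h11 M ({l // l ∈ L₀} × Ev (M + w)) ζ' (chE lam' ζ) hζ'4 (by
    intro j
    unfold chE
    rw [mul_pow, hchc, hlam', hlam, one_mul])).1
  obtain ⟨gO, hgO⟩ := (h11 M ({l // l ∈ L₀} × Od (M + w)) ζ' (chO lam' ζ) hζ'4 (by
    intro j
    unfold chO
    rw [mul_pow, hchc, hlam', hlam, one_mul])).1
  obtain ⟨g2, hg2⟩ := (h11 M ({l // l ∉ L₀} × Ev (M + w)) ζ' (chE lam'' ζ) hζ'4 (by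
    intro j
    unfold chE
    rw [mul_pow, hchc, hlam'', hlam, one_mul])).1
  -- the operators
  obtain ⟨TE, hTE⟩ := h8 M _ _ (clE M w {l // l ∈ L₀})
  obtain ⟨TC, hTC⟩ := h8 M _ _ ((mC {l // l ∈ L₀} e).map (cG : ℂ → GS M))
  obtain ⟨TD, hTD⟩ := h8 M _ _ ((mD {l // l ∈ L₀} e).map (cG : ℂ → GS M))
  obtain ⟨A, hA⟩ := h8 M _ _ (fA M w {l // l ∈ L₀} e)
  have hTCE : TC ∘L TE = A := h15 M _ _ _ (mC {l // l ∈ L₀} e) _ TC TE A hTC hTE (by
    rw [fA_eq h12]
    exact hA)
  have hCD : TC ∘L TD = 1 := h15 M _ _ _ (mC {l // l ∈ L₀} e) _ TC TD 1 hTC hTD (by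
    rw [← map_cG_mul, mC_mD h12 _ e he, map_cG_one]
    exact (h9 M _ ({l // l ∈ L₀} × Ev (M + w))).2.2.2)
  have hDC : TD ∘L TC = 1 := h15 M _ _ _ (mD {l // l ∈ L₀} e) _ TD TC 1 hTD hTC (by
    rw [← map_cG_mul, mD_mC h12 _ e he, map_cG_one]
    exact (h9 M _ ({l // l ∈ L₀} × Od (M + w))).2.2.2)
  have hce : ∀ I' I : Finset (Fin (M + w)), cl e I' I ≠ 0 → chc ζ I' = chc ζ I := by
    intro I' I h
    have h1 := h13 (M + w) ζ e I' I hζ
    have h2 : (fun i => ζ i * e i) = e := funext hζe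
    rw [h2, mul_comm (chc ζ I)] at h1
    exact mul_left_cancel₀ h h1
  have hTCg : TC ∘L gO = gE ∘L TC := by
    refine h10 M _ _ ζ' (chO lam' ζ) (chE lam' ζ) _ TC gO gE hζ'0 ?_ hTC hgO hgE
    intro j' j k hk
    rw [Matrix.map_apply] at hk
    obtain ⟨hk0, hc⟩ := coeff_cG _ _ hk
    subst hk0
    unfold mC at hc
    by_cases hj : j'.1 = j.1
    · rw [if_pos hj] at hc
      unfold chE chO
      rw [hj, hce _ _ hc]
      simp
    · rw [if_neg hj] at hc
      exact absurd rfl hc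
  have hCind : HasInd gO gE TC 0 := h2 _ _ gO gE TC TD hTCg hDC hCD
  have hEind : HasInd gE gO TE ((∑ l, lam' l) * va M w ζ) :=
    h14 M w {l // l ∈ L₀} lam' ζ TE gE gO hM hζ (fun l => hlam l.1) hTE hgE hgO
  have hAind : HasInd gE gE A ((∑ l, lam' l) * va M w ζ + 0) := by
    rw [← hTCE]
    exact h1 _ _ _ gE gO gE TE TC _ _ hEind hCind
  have h1ind : HasInd g2 g2 (1 : H (In M ({l // l ∉ L₀} × Ev (M + w))) →L[ℂ] _) 0 :=
    h2 _ _ g2 g2 1 1 rfl rfl rfl
  have hblock := h3 _ _ _ _ gE g2 gE g2 A 0 1 (A.prodMap 1) _ _ hAind h1ind (by simp) (by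
    intro x y
    simp)
  -- the operators in the coordinates
  have hEg : E.toContinuousLinearMap ∘L g = (gE.prodMap g2) ∘L E.toContinuousLinearMap := by
    refine (h5 _ _).2.2 _ _ ?_
    rintro ⟨a, l, I⟩
    show E (g (de (a, (l, I)))) = (gE.prodMap g2) (E (de (a, (l, I))))
    rw [hg, map_smul]
    by_cases hl : l ∈ L₀
    · have := hE1 a ⟨l, hl⟩ I
      rw [this]
      show _ = (gE (de (a, (⟨l, hl⟩, I))), g2 0)
      rw [hgE, map_zero, Prod.smul_mk, smul_zero]
      rfl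
    · have := hE2 a ⟨l, hl⟩ I
      rw [this]
      show _ = (gE 0, g2 (de (a, (⟨l, hl⟩, I))))
      rw [hg2, map_zero, Prod.smul_mk, smul_zero]
      rfl
  have hET : E.toContinuousLinearMap ∘L T = (A.prodMap 1) ∘L E.toContinuousLinearMap := by
    refine (h5 _ _).2.2 _ _ ?_
    rintro ⟨a, l, I⟩
    show E (T (de (a, (l, I)))) = (A.prodMap 1) (E (de (a, (l, I))))
    by_cases hl : l ∈ L₀
    · have := hE1 a ⟨l, hl⟩ I
      rw [this]
      refine Prod.ext ?_ ?_
      · show (E (T (de (a, (l, I))))).1 = A (de (a, (⟨l, hl⟩, I)))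
        refine lp.ext (funext ?_)
        rintro ⟨b, m, I'⟩
        rw [hE3, hT, hA]
        unfold phS fA
        simp only [Subtype.ext_iff]
        rw [if_pos hl]
      · show (E (T (de (a, (l, I))))).2 = 0
        refine lp.ext (funext ?_)
        rintro ⟨b, m, I'⟩
        rw [hE4, hT]
        unfold phS
        rw [if_neg]
        · rfl
        · intro h
          exact m.2 (by
            have h' : m.1 = l := h
            rw [h']
            exact hl)
    · have := hE2 a ⟨l, hl⟩ I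
      rw [this]
      refine Prod.ext ?_ ?_
      · show (E (T (de (a, (l, I))))).1 = A 0
        rw [map_zero]
        refine lp.ext (funext ?_)
        rintro ⟨b, m, I'⟩
        rw [hE3, hT]
        unfold phS
        rw [if_neg]
        · rfl
        · intro h
          exact hl (by
            have h' : m.1 = l := h
            rw [← h']
            exact m.2)
      · show (E (T (de (a, (l, I))))).2 = de (a, (⟨l, hl⟩, I))
        refine lp.ext (funext ?_)
        rintro ⟨b, m, I'⟩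
        have hone := (h9 M ({l // l ∉ L₀} × Ev (M + w)) ({l // l ∉ L₀} × Ev (M + w))).2.2.2 a b
          (⟨l, hl⟩, I) (m, I')
        rw [hE4, hT]
        refine Eq.trans ?_ hone.symm
        unfold phS
        simp only [Matrix.one_apply, Prod.mk.injEq, Subtype.ext_iff]
        rw [if_neg hl]
        by_cases hml : m.1 = l
        · simp [hml]
        · simp [hml]
  have hEg' : ∀ v, E (g v) = (gE.prodMap g2) (E v) := fun v =>
    congrArg (fun F : H (In M (L × Ev (M + w))) →L[ℂ] _ => F v) hEg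
  have hET' : ∀ v, E (T v) = (A.prodMap 1) (E v) := fun v =>
    congrArg (fun F : H (In M (L × Ev (M + w))) →L[ℂ] _ => F v) hET
  have hfin := h4 _ _ _ _ (gE.prodMap g2) (gE.prodMap g2) g g E.symm E.symm (A.prodMap 1) T _ (by
      intro v
      rw [ContinuousLinearEquiv.symm_apply_eq, hEg', ContinuousLinearEquiv.apply_symm_apply]) (by
      intro v
      rw [ContinuousLinearEquiv.symm_apply_eq, hEg', ContinuousLinearEquiv.apply_symm_apply]) (by
      intro v
      rw [eq_comm, ContinuousLinearEquiv.symm_apply_eq, hET',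
        ContinuousLinearEquiv.apply_symm_apply]) hblock
  have hsum : ∑ l, lam' l = (L₀.card : ℂ) := by
    rw [Finset.sum_congr rfl fun l _ => hlam1 l.1 l.2]
    simp
  rw [hsum, add_zero, add_zero] at hfin
  exact hfin

end Pool.Agent.Tate.Ko
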