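import Pool.Agent.Lib.Tate.K.Spec

/-!
# C42 (MP_071d69_gt), block K, statement Kc: constant symbols
-/

set_option autoImplicit false

open Set Filter Topology

noncomputable section

namespace Pool.Agent.Tate.Ko

open Idx Toe

namespace KcM

/-- the coordinates -/
private def cor {ι : Type} (q : ι) : H ι →L[ℂ] ℂ := lp.evalCLM ℂ (fun _ : ι => ℂ) 1 q

private theorem cor_apply {ι : Type} (q : ι) (x : H ι) : cor q x = (x : ι → ℂ) q := rfl

open Classical in
private theorem de_apply {ι : Type} (p q : ι) : (de p : ι → ℂ) q = if q = p then 1 else 0 := by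
  rw [de, lp.single_apply]
  by_cases h : q = p
  · subst h
    rw [Pi.single_eq_same, if_pos rfl]
  · rw [Pi.single_eq_of_ne h, if_neg h]

private theorem df_zero {M : ℕ} {a b : Fin M → ℕ} : df b a = 0 ↔ b = a := by
  constructor
  · intro h
    funext i
    have h1 : (b i : ℤ) - a i = 0 := congrFun h i
    omega
  · rintro rfl
    funext i
    show (b i : ℤ) - b i = 0
    ring

/-- the coefficient at `k`, evaluated at `t`, as an additive map -/
private def cf {M : ℕ} (k : Fin M → ℤ) (t : Fin M → ℝ) : GS M →+ ℂ where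
  toFun f := f.1.coeff k t
  map_zero' := rfl
  map_add' _ _ := rfl

open Classical in
private theorem cf_cG {M : ℕ} (k : Fin M → ℤ) (t : Fin M → ℝ) (c : ℂ) :
    cf k t (cG c) = if k = 0 then c else 0 := by
  show (AddMonoidAlgebra.single (0 : Fin M → ℤ) (fun _ : Fin M → ℝ => c)).coeff k t = _
  rw [AddMonoidAlgebra.coeff_single, Finsupp.single_apply]
  by_cases h : k = 0
  · rw [if_pos h.symm, if_pos h]
  · rw [if_neg fun h' => h h'.symm, if_neg h]
    rfl

private theorem cf_mul {M : ℕ} (k : Fin M → ℤ) (t : Fin M → ℝ) (c : ℂ) (f : GS M) :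
    cf k t (cG c * f) = c * cf k t f := by
  show ((AddMonoidAlgebra.single (0 : Fin M → ℤ) (fun _ : Fin M → ℝ => c)) * f.1).coeff k t = _
  rw [AddMonoidAlgebra.coeff_single_zero_mul]
  rfl

end KcM

open KcM in
theorem pKc (h1 : Idx.S_L2) : S_Kc := by
  classical
  intro M J J' J'' _ _ _ A f T₁ T₂ T₃ hT₁ hT₂ hT₃
  -- the coordinates of `T₁ x`
  have key : ∀ (x : H (In M J')) (b : Fin M → ℕ) (j'' : J''),
      (T₁ x : In M J'' → ℂ) (b, j'') = ∑ j', A j'' j' * (x : In M J' → ℂ) (b, j') := by
    intro x b j''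
    have h2 : (cor (b, j'')) ∘L T₁ = ∑ j', A j'' j' • cor (b, j') := by
      refine (h1 (In M J') ℂ).2.2 _ _ ?_
      rintro ⟨a, j'⟩
      rw [ContinuousLinearMap.comp_apply, cor_apply, hT₁ a b j' j'', sum_apply]
      have e1 : ((A.map (cG : ℂ → GS M)) j'' j').1.coeff (df b a) (pt a) =
          if df b a = 0 then A j'' j' else 0 := cf_cG (df b a) (pt a) (A j'' j')
      have e2 : ∀ j₁ : J', (A j'' j₁ • cor (b, j₁)) (de (a, j')) =
          if j₁ = j' then (if df b a = 0 then A j'' j' else 0) else 0 := by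
        intro j₁
        show A j'' j₁ * (de (a, j') : In M J' → ℂ) (b, j₁) = _
        rw [de_apply]
        by_cases h : j₁ = j'
        · subst h
          rw [if_pos rfl]
          by_cases h' : b = a
          · rw [if_pos (by rw [h']), if_pos (df_zero.2 h'), mul_one]
          · rw [if_neg fun h'' => h' (congrArg Prod.fst h''), if_neg fun h'' => h' (df_zero.1 h''),
              mul_zero]
        · rw [if_neg fun h'' => h (congrArg Prod.snd h''), if_neg h, mul_zero]
      rw [e1, Finset.sum_congr rfl fun j₁ _ => e2 j₁, Finset.sum_ite_eq', if_pos (Finset.mem_univ _)]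
    have h3 := congrArg (fun A : H (In M J') →L[ℂ] ℂ => A x) h2
    rw [sum_apply] at h3
    exact h3
  refine (h1 (In M J) (H (In M J''))).2.2 _ _ ?_
  rintro ⟨a, j⟩
  ext ⟨b, j''⟩
  rw [ContinuousLinearMap.comp_apply, key, hT₃ a b j j'']
  have e3 : ((A.map (cG : ℂ → GS M) * f) j'' j).1.coeff (df b a) (pt a) =
      cf (df b a) (pt a) ((A.map (cG : ℂ → GS M) * f) j'' j) := rfl
  rw [e3, Matrix.mul_apply, map_sum]
  refine Finset.sum_congr rfl fun j' _ => ?_
  rw [Matrix.map_apply, cf_mul, hT₂ a b j j']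
  rfl

end Pool.Agent.Tate.Ko
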