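import Pool.Agent.Lib.Tate.K.Spec

set_option autoImplicit false

open Set Filter Topology

noncomputable section

namespace Pool.Agent.Tate.Ko

open Idx Toe

namespace KpAux

theorem val_sum {M : ℕ} {ι : Type} (s : Finset ι) (f : ι → GS M) (k : Fin M → ℤ) :
    (∑ i ∈ s, f i : GS M).1.coeff k = ∑ i ∈ s, (f i).1.coeff k := by
  rw [AddSubmonoidClass.coe_finsetSum, AddMonoidAlgebra.coeff_sum, Finsupp.finsetSum_apply]

theorem coeff_cG_mul {M : ℕ} (c : ℂ) (f : GS M) (k : Fin M → ℤ) :
    (cG c * f : GS M).1.coeff k = fun t => c * f.1.coeff k t := by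
  show (AddMonoidAlgebra.single 0 _ * f.1 : RR M).coeff k = _
  rw [AddMonoidAlgebra.coeff_single_zero_mul]
  rfl

section

variable {M w : ℕ} {L : Type} [Fintype L] [DecidableEq L]

/-- parity of the product of two Clifford multiplications -/
theorem par (h1 : S_C1) {N : ℕ} (x y : Fin N → ℂ) (I' I : Finset (Fin N)) (hI' : Even I'.card)
    (hI : ¬ Even I.card) : (cl x * cl y) I' I = 0 := by
  rw [Matrix.mul_apply]
  apply Finset.sum_eq_zero
  intro K _
  by_cases hK : Even K.card
  · rw [(h1 N x).2.2 I' K ⟨fun _ => hK, fun _ => hI'⟩, zero_mul]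
  · rw [(h1 N y).2.2 K I ⟨fun h => absurd h hK, fun h => absurd h hI⟩, mul_zero]

theorem clmul (h1 : S_C1) {N : ℕ} (x y : Fin N → ℂ) (hx : ∑ i, ‖x i‖ ^ 2 = 1)
    (hy : ∑ i, ‖y i‖ ^ 2 = 1) : (cl x * cl y) * (cl y * cl x) = 1 := by
  have e1 : cl x * cl x = 1 := by
    rw [(h1 N x).1, hx]
    simp
  have e2 : cl y * cl y = 1 := by
    rw [(h1 N y).1, hy]
    simp
  calc (cl x * cl y) * (cl y * cl x) = cl x * (cl y * cl y) * cl x := by
        simp only [mul_assoc]
    _ = 1 := by rw [e2, mul_one, e1]

/-- `phF L₀ x y` is invertible. -/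
theorem phF_mul (h1 : S_C1) {N : ℕ} (L₀ : Finset L) (x y : Fin N → ℂ)
    (hx : ∑ i, ‖x i‖ ^ 2 = 1) (hy : ∑ i, ‖y i‖ ^ 2 = 1) : phF L₀ x y * phF L₀ y x = 1 := by
  ext ⟨l, I'⟩ ⟨l', I⟩
  rw [Matrix.mul_apply, Fintype.sum_prod_type, Finset.sum_eq_single l]
  · by_cases hl : l = l'
    · subst hl
      unfold phF
      simp only [if_true]
      by_cases hL : l ∈ L₀
      · simp only [if_pos hL]
        have e : ∑ K : Ev N, (cl x * cl y) I'.1 K.1 * (cl y * cl x) K.1 I.1 =
            ((cl x * cl y) * (cl y * cl x)) I'.1 I.1 := by
          rw [Matrix.mul_apply]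
          have e2 : ∑ K : Finset (Fin N), (cl x * cl y) I'.1 K * (cl y * cl x) K I.1 =
              ∑ K ∈ Finset.univ.filter (fun K : Finset (Fin N) => Even K.card),
                (cl x * cl y) I'.1 K * (cl y * cl x) K I.1 := by
            rw [Finset.sum_filter]
            refine Finset.sum_congr rfl fun K _ => ?_
            split_ifs with hK
            · rfl
            · rw [par h1 x y I'.1 K I'.2 hK, zero_mul]
          rw [e2]
          exact (Finset.sum_subtype (Finset.univ.filter (fun K : Finset (Fin N) => Even K.card))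
            (p := fun K => Even K.card) (by intro K; simp)
            (fun K => (cl x * cl y) I'.1 K * (cl y * cl x) K I.1)).symm
        rw [e, clmul h1 x y hx hy]
        by_cases hI : I' = I
        · subst hI
          rw [Matrix.one_apply_eq, Matrix.one_apply_eq]
        · rw [Matrix.one_apply_ne (fun h => hI (Subtype.ext h)), Matrix.one_apply_ne]
          intro h
          exact hI (Prod.ext_iff.1 h).2
      · simp only [if_neg hL]
        by_cases hI : I' = I
        · subst hI
          simp
        · rw [Matrix.one_apply_ne (fun h => hI (Prod.ext_iff.1 h).2)]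
          apply Finset.sum_eq_zero
          intro K _
          by_cases h : I' = K
          · subst h
            rw [if_neg hI, mul_zero]
          · rw [if_neg h, zero_mul]
    · rw [Matrix.one_apply_ne (fun h => hl (Prod.ext_iff.1 h).1)]
      apply Finset.sum_eq_zero
      intro K _
      unfold phF
      simp [hl]
  · intro l'' _ hl
    apply Finset.sum_eq_zero
    intro K _
    unfold phF
    rw [if_neg (show ¬ ((l, I') : L × Ev N).1 = ((l'', K) : L × Ev N).1 from fun h => hl h.symm),
      zero_mul]
  · intro h
    exact absurd (Finset.mem_univ _) h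

end

end KpAux

open KpAux

theorem pKp (h1 : S_C1) (hCg : S_Cg) (hCe : S_Ce) (hCq : S_Cq) : S_Kp := by
  intro M w L _ _ L₀ lam ζ e hζ he hζe
  refine ⟨?_, ?_, ?_⟩
  · intro z
    ext p q
    rw [Matrix.map_apply]
    unfold phS phF
    by_cases hpq : p.1 = q.1
    · rw [if_pos hpq, if_pos hpq]
      by_cases hL : q.1 ∈ L₀
      · rw [if_pos hL, if_pos hL, map_sum, Matrix.mul_apply]
        refine Finset.sum_congr rfl fun I _ => ?_
        rw [map_mul, ev_cG, ← hCe M w z, Matrix.map_apply]
      · rw [if_neg hL, if_neg hL]
        split_ifs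
        · exact map_one _
        · exact map_zero _
    · rw [if_neg hpq, if_neg hpq, map_zero]
  · intro z hz
    have hz' : ∑ i, ‖Fin.append z (0 : Fin w → ℂ) i‖ ^ 2 = 1 := by
      rw [Fin.sum_univ_add]
      simp only [Fin.append_left, Fin.append_right, Pi.zero_apply, norm_zero]
      have : ∑ i, ‖z i‖ ^ 2 = 1 := hz
      rw [this]
      simp
    have h := phF_mul h1 L₀ e (Fin.append z (0 : Fin w → ℂ)) he hz'
    have h2 := congrArg Matrix.det h
    rw [Matrix.det_mul, Matrix.det_one] at h2
    exact left_ne_zero_of_mul (by rw [h2]; exact one_ne_zero)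
  · intro p q k hk
    unfold phS at hk
    by_cases hpq : p.1 = q.1
    · rw [if_pos hpq] at hk
      by_cases hL : q.1 ∈ L₀
      · rw [if_pos hL, val_sum] at hk
        obtain ⟨I, -, hI⟩ := Finset.exists_ne_zero_of_sum_ne_zero hk
        rw [coeff_cG_mul] at hI
        have hcl : cl e p.2.1 I ≠ 0 := by
          intro h
          apply hI
          funext t
          rw [h, zero_mul]
          rfl
        have hS : (clS M w I q.2.1).1.coeff k ≠ 0 := by
          intro h
          apply hI
          funext t
          rw [h]
          show _ * (0 : ℂ) = 0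
          rw [mul_zero]
        have hIodd : ¬ Even I.card := by
          intro h
          exact hcl ((h1 _ e).2.2 p.2.1 I ⟨fun _ => h, fun _ => p.2.2⟩)
        have hch : chc ζ p.2.1 = chc ζ I := by
          have h2 := hCg (M + w) ζ e p.2.1 I hζ
          have h3 : (fun i => ζ i * e i) = e := by
            funext i
            exact hζe i
          rw [h3, mul_comm] at h2
          exact mul_right_cancel₀ hcl h2
        have h4 := (hCq M w L lam ζ hζ).1 (q.1, ⟨I, hIodd⟩) q k (by
          unfold clE
          rw [if_pos rfl]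
          exact hS)
        unfold chE
        unfold chO chE at h4
        rw [hpq, hch]
        exact h4
      · rw [if_neg hL] at hk
        split_ifs at hk with h2
        · have hk0 : k = 0 := by
            by_contra h3
            apply hk
            show (AddMonoidAlgebra.single 0 1 : RR M).coeff k = 0
            classical
            rw [AddMonoidAlgebra.coeff_single, Finsupp.single_apply, if_neg (fun h => h3 h.symm)]
          subst hk0
          have : p = q := Prod.ext hpq h2
          rw [this]
          simp
        · exact absurd rfl hk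
    · rw [if_neg hpq] at hk
      exact absurd rfl hk

end Pool.Agent.Tate.Ko
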