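import Pool.Agent.Lib.Tate.Toe.Spec

/-!
# C42 (MP_071d69_gt), T7 (Det), block K (helper35): the index of the Clifford symbol, and the final inequality

`cl z = ∑ z_i e_i ∧ + conj z_i ι_i` on the exterior algebra of `ℂ^N`, `N = M + w`, basis `e_I`, `I ⊆ Fin N`.
The symbol `z ↦ cl (z, 0)`, `z ∈ ℂ^M`, defines a Toeplitz operator from the even to the odd part, with labels in `L`;
its index is `(∑ λ_l) (-1)^M ∏_{i < M} ζ_i⁻¹ ∏_{k < w} (1 - ζ_{M+k}⁻¹)` (`S_K4`).  Final result for the conclusion: `S_Fn`.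

Complete proofs in the docstrings.  Statement `S_X` is proved by `theorem pX` in
`Pool/Agent/Lib/Tate/K/X.lean` (namespace `Pool.Agent.Tate.Ko`); the statements which are used are
hypotheses of the theorem.
-/

set_option autoImplicit false

open Set Filter Topology

noncomputable section

namespace Pool.Agent.Tate.Ko

open Idx Toe

/-! ### Definitions -/

/-- The sign `(-1)^(number of elements of I below i)`. -/
def sg {N : ℕ} (I : Finset (Fin N)) (i : Fin N) : ℂ := (-1) ^ (I.filter fun j => j < i).card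

/-- The matrix of `e_i ∧`. -/
def ee {N : ℕ} (i : Fin N) : Matrix (Finset (Fin N)) (Finset (Fin N)) ℂ := fun I' I =>
  if i ∉ I ∧ I' = insert i I then sg I i else 0

/-- Clifford multiplication. -/
def cl {N : ℕ} (z : Fin N → ℂ) : Matrix (Finset (Fin N)) (Finset (Fin N)) ℂ :=
  ∑ i, (z i • ee i + (starRingEnd ℂ) (z i) • (ee i).transpose)

/-- The even subsets. -/
abbrev Ev (N : ℕ) : Type := {I : Finset (Fin N) // Even I.card}

/-- The odd subsets. -/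
abbrev Od (N : ℕ) : Type := {I : Finset (Fin N) // ¬ Even I.card}

/-- The character of `e_I`. -/
def chc {N : ℕ} (ζ : Fin N → ℂ) (I : Finset (Fin N)) : ℂ := ∏ i ∈ I, (ζ i)⁻¹

/-- The characters of the even part, with labels. -/
def chE {N : ℕ} {L : Type} (lam : L → ℂ) (ζ : Fin N → ℂ) : L × Ev N → ℂ := fun p =>
  lam p.1 * chc ζ p.2.1

/-- The characters of the odd part, with labels. -/
def chO {N : ℕ} {L : Type} (lam : L → ℂ) (ζ : Fin N → ℂ) : L × Od N → ℂ := fun p =>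
  lam p.1 * chc ζ p.2.1

/-- The symbol of `z ↦ cl (z, 0)`. -/
def clS (M w : ℕ) : Matrix (Finset (Fin (M + w))) (Finset (Fin (M + w))) (GS M) := fun I' I =>
  ∑ i : Fin M, (Zs i * cG (ee (Fin.castAdd w i) I' I) + Zc i * cG (ee (Fin.castAdd w i) I I'))

/-- The part from even to odd, with labels. -/
def clE (M w : ℕ) (L : Type) [DecidableEq L] :
    Matrix (L × Od (M + w)) (L × Ev (M + w)) (GS M) := fun p q =>
  if p.1 = q.1 then clS M w p.2.1 q.2.1 else 0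

/-- The part from odd to even, with labels. -/
def clO (M w : ℕ) (L : Type) [DecidableEq L] :
    Matrix (L × Ev (M + w)) (L × Od (M + w)) (GS M) := fun p q =>
  if p.1 = q.1 then clS M w p.2.1 q.2.1 else 0

/-- The degree `|a| - #(I ∩ [M])`. -/
def dg {M w : ℕ} (a : Fin M → ℕ) (I : Finset (Fin (M + w))) : ℤ :=
  (∑ i, (a i : ℤ)) - ((I.filter fun i : Fin (M + w) => (i : ℕ) < M).card : ℤ)

/-- The value of the index. -/
def va (M w : ℕ) (ζ : Fin (M + w) → ℂ) : ℂ :=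
  (-1) ^ M * (∏ i : Fin M, (ζ (Fin.castAdd w i))⁻¹) * ∏ k : Fin w, (1 - (ζ (Fin.natAdd M k))⁻¹)

/-- `cl e cl z` for the labels in `L₀`, the identity for the other labels. -/
def phF {N : ℕ} {L : Type} [DecidableEq L] (L₀ : Finset L) (e z : Fin N → ℂ) :
    Matrix (L × Ev N) (L × Ev N) ℂ := fun p q =>
  if p.1 = q.1 then (if q.1 ∈ L₀ then (cl e * cl z) p.2.1 q.2.1 else if p.2 = q.2 then 1 else 0)
  else 0

/-- The symbol of `z ↦ phF L₀ e (z, 0)`. -/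
def phS (M w : ℕ) {L : Type} [DecidableEq L] (L₀ : Finset L) (e : Fin (M + w) → ℂ) :
    Matrix (L × Ev (M + w)) (L × Ev (M + w)) (GS M) := fun p q =>
  if p.1 = q.1 then (if q.1 ∈ L₀ then ∑ I, cG (cl e p.2.1 I) * clS M w I q.2.1
    else if p.2 = q.2 then 1 else 0)
  else 0

/-! ### The Clifford algebra -/

/-- **Ca.** The canonical anticommutation relations.

Proof. `(ee i * ee j) I' I ≠ 0` iff `i ≠ j`, `i, j ∉ I`, `I' = I ∪ {i, j}`, with the value `sg (I ∪ {j}) i * sg I j`; exchanging `i` and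
`j` changes exactly one of the signs (if `i < j`: `sg (I ∪ {i}) j = - sg I j`, `sg (I ∪ {j}) i = sg I i`).
`(ee i * (ee j)ᵀ) I' I`: `I = J ∪ {j}`, `I' = J ∪ {i}` with `i, j ∉ J`, value `sg J i sg J j`;  `((ee j)ᵀ * ee i) I' I`: `I ∪ {i} = I' ∪ {j}`
with `i ∉ I`, `j ∉ I'`, value `sg I i sg I' j`.  For `i ≠ j` both occur for the same `I`, `I'` (`J = I ∖ {j}`), and the values are
opposite; for `i = j` the first is the projection to the `I ∋ i`, the second to the `I ∌ i` (`sg ^ 2 = 1`). -/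
def S_Ca : Prop := ∀ (N : ℕ) (i j : Fin N), ee i * ee j + ee j * ee i = 0 ∧
  ee i * (ee j).transpose + (ee j).transpose * ee i = if i = j then 1 else 0

/-- **C1.** Properties of Clifford multiplication.  (Uses `S_Ca`.)

Proof. Square: expand, the terms `z_i z_j (ee i ee j + ee j ee i)` cancel (also for `i = j`, and for the transposed matrices), the mixed
terms are `∑_{i, j} z_i conj z_j (ee i (ee j)ᵀ + (ee j)ᵀ ee i) = ∑ |z_i|²`.  Hermitian: the entries of `ee i` are real.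
Parity: `|insert i I| = |I| + 1` for `i ∉ I`. -/
def S_C1 : Prop := ∀ (N : ℕ) (z : Fin N → ℂ),
  cl z * cl z = ((∑ i, ‖z i‖ ^ 2 : ℝ) : ℂ) • (1 : Matrix (Finset (Fin N)) (Finset (Fin N)) ℂ) ∧
  (cl z).conjTranspose = cl z ∧
  ∀ I' I : Finset (Fin N), (Even I'.card ↔ Even I.card) → cl z I' I = 0

/-- **Cg.** Equivariance of Clifford multiplication.

Proof. Entries with `I' = insert i I`: `ζ_i z_i χ_{I'} = ζ_i z_i ζ_i⁻¹ χ_I`; entries with `I = insert i I'`: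
`conj (ζ_i z_i) χ_{I'} = ζ_i⁻¹ conj z_i ζ_i χ_I` (`conj ζ_i = ζ_i⁻¹` as `|ζ_i| = 1`). -/
def S_Cg : Prop := ∀ (N : ℕ) (ζ z : Fin N → ℂ) (I' I : Finset (Fin N)), (∀ i, ζ i ^ 4 = 1) →
  cl (fun i => ζ i * z i) I' I * chc ζ I' = chc ζ I * cl z I' I

/-- **Ce.** Values of the symbols.

Proof. `ev z (Zs i) = z i`, `ev z (Zc i) = conj (z i)` (`ev_Zs`, `ev_Zc`, `ev_cG`), and in `cl (Fin.append z 0)` the terms with the last
`w` indices vanish (`Fin.sum_univ_add`). -/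
def S_Ce : Prop := ∀ (M w : ℕ) (z : Fin M → ℂ), (clS M w).map (ev z) =
  cl (Fin.append z (0 : Fin w → ℂ))

/-- **Cq.** Equivariance of the symbols.

Proof. The only coefficients of `clS I' I` are those at `k = e_i` (`i < M`, `i ∉ I`, `I' = I ∪ {i}`) and at `k = -e_i` (`i ∉ I'`,
`I = I' ∪ {i}`).  In the first case `ζ_i chc I' = ζ_i ζ_i⁻¹ chc I`, in the second `ζ_i⁻¹ chc I' = chc I`. -/
def S_Cq : Prop := ∀ (M w : ℕ) (L : Type) [Fintype L] [DecidableEq L] (lam : L → ℂ)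
  (ζ : Fin (M + w) → ℂ), (∀ i, ζ i ^ 4 = 1) →
  Eqs (fun i => ζ (Fin.castAdd w i)) (chE lam ζ) (chO lam ζ) (clE M w L) ∧
  Eqs (fun i => ζ (Fin.castAdd w i)) (chO lam ζ) (chE lam ζ) (clO M w L)

/-! ### The index -/

/-- **K1.** The alternating sum of the characters.

Proof. The set is finite: `|a| < n + M`.  `I = I₁ ∪ I₂`, `I₁` in the first `M`, `I₂` in the last `w` elements; the sum is the product
of `∑_{I₂} (-1)^|I₂| ∏_{k ∈ I₂} ξ_k⁻¹ = ∏_k (1 - ξ_k⁻¹)` and of `∑_{(a, I₁)} (-1)^|I₁| ζ^b`, `b = a - 1_{I₁}`, over `|b| < n`.  Involution on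
the pairs `(a, I₁)` with `b_i ≥ 0` for some `i`: for the smallest such `i` replace `(a, I₁)` by `(a + e_i, I₁ ∪ {i})` if `i ∉ I₁` and by
`(a - e_i, I₁ ∖ {i})` if `i ∈ I₁` (then `a_i = b_i + 1 ≥ 1`): `b` does not change, the sign does (`Finset.sum_involution`).  The
remaining pair is `a = 0`, `I₁` = all, `b = (-1, …, -1)`, `|b| = -M < n`, with the value `(-1)^M ∏ ζ_i⁻¹`. -/
def S_K1 : Prop := ∀ (M w : ℕ) (ζ : Fin (M + w) → ℂ) (n : ℤ), (∀ i, ζ i ≠ 0) → -(M : ℤ) < n →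
  ∃ s : Finset ((Fin M → ℕ) × Finset (Fin (M + w))), (∀ p, p ∈ s ↔ dg p.1 p.2 < n) ∧
    ∑ p ∈ s, (-1 : ℂ) ^ p.2.card * ((∏ i : Fin M, ζ (Fin.castAdd w i) ^ p.1 i) * chc ζ p.2) =
      va M w ζ

/-- **K2.** The square of the Clifford operator.
(Uses `Toe.S_E2`, `Toe.S_To1`, `Toe.S_To2`, `Toe.S_C0`, `Toe.S_To3`, `S_C1`, `S_Ce`.)

Proof. `u = clO * clE - 1` satisfies `ev z u = 0` on `Sp M`: `cl (z, 0)² = |z|² = 1` (`S_C1`, `S_Ce`; in the product over the odd index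
set only zero terms are missing, by the parity statement of `S_C1`).  So the coefficients of `u` vanish on the simplex (`S_E2` with
`ρ = 0`), the Toeplitz operator `T_u` has non-zero columns only for `a = 0`, it is `Col0` (`S_C0`).
`T_O T_E - 1 = (T_O T_E - T_{clO * clE}) + T_u`: `S_To3`, `S_To2`, `S_To1`.  The same for the other order. -/
def S_K2 : Prop := ∀ (M w : ℕ) (L : Type) [Fintype L] [DecidableEq L]
  (TE : H (In M (L × Ev (M + w))) →L[ℂ] H (In M (L × Od (M + w))))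
  (TO : H (In M (L × Od (M + w))) →L[ℂ] H (In M (L × Ev (M + w)))),
  IsTo (clE M w L) TE → IsTo (clO M w L) TO → Col0 (TO ∘L TE - 1) ∧ Col0 (TE ∘L TO - 1)

/-- **K3.** The Clifford operators preserve the degree.

Proof. The entry is a coefficient of `clS I' I` at `k = b - a`, non-zero only for `k = e_i`, `I' = I ∪ {i}`, `i ∉ I` or `k = -e_i`,
`I = I' ∪ {i}`, `i ∉ I'` with `i < M`. -/
def S_K3 : Prop := ∀ (M w : ℕ) (L : Type) [Fintype L] [DecidableEq L]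
  (TE : H (In M (L × Ev (M + w))) →L[ℂ] H (In M (L × Od (M + w))))
  (TO : H (In M (L × Od (M + w))) →L[ℂ] H (In M (L × Ev (M + w)))),
  IsTo (clE M w L) TE → IsTo (clO M w L) TO →
  (∀ (a b : Fin M → ℕ) (p : L × Ev (M + w)) (q : L × Od (M + w)),
    (TE (de (a, p)) : In M (L × Od (M + w)) → ℂ) (b, q) ≠ 0 → dg b q.2.1 = dg a p.2.1) ∧
  ∀ (a b : Fin M → ℕ) (p : L × Ev (M + w)) (q : L × Od (M + w)),
    (TO (de (a, q)) : In M (L × Ev (M + w)) → ℂ) (b, p) ≠ 0 → dg b p.2.1 = dg a q.2.1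

/-- **K4.** The index of the Clifford operator.
(Uses `Idx.S_T2`, `Idx.S_L1`, `Idx.S_L2`, `Idx.S_L3`, `Idx.S_L7`, `Toe.S_To1`, `Toe.S_To5`, `S_Cq`, `S_K1`, `S_K2`, `S_K3`.)

Proof. `TO` from `S_To1`.  `E = TO TE - 1`, `E' = TE TO - 1`; `n₀ > -M` such that `‖E de p‖, ‖E' de p‖ ≤ 1/2` for `dg p ≥ n₀` (`S_K2`:
finitely many exceptions).  `Π`, `Π'` the diagonal operators with columns `de p` for `dg p ≥ n₀` and `0` otherwise, on the even and odd
side (`S_L1`).  `TE Π = Π' TE`, `TO Π' = Π TO` (`S_K3`).  `‖E Π‖ ≤ 1/2`, `‖E' Π'‖ ≤ 1/2` (`S_L2`); `U = 1 + E Π`, `V = 1 + E' Π'` are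
invertible, `TE U = V TE` (`TE E = E' TE`), so `TE U⁻¹ = V⁻¹ TE`.  `S = U⁻¹ TO Π'`: `S TE = U⁻¹ (1 + E) Π = U⁻¹ U Π = Π` and
`TE S = V⁻¹ TE TO Π' = V⁻¹ (1 + E') Π' = Π'`.  All operators commute with `g` (`S_To5`, `S_Cq`).  `1 - S TE = 1 - Π` is the diagonal
projection to the finitely many `p` with `dg p < n₀`; so the index is (`S_L7`) `∑ chr p` over the even side minus the same over the odd
side, `= (∑ λ_l) ∑_{(a, I), dg < n₀} (-1)^|I| ζ^a chc I`; `S_K1`. -/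
def S_K4 : Prop := ∀ (M w : ℕ) (L : Type) [Fintype L] [DecidableEq L] (lam : L → ℂ)
  (ζ : Fin (M + w) → ℂ) (TE : H (In M (L × Ev (M + w))) →L[ℂ] H (In M (L × Od (M + w))))
  (g : H (In M (L × Ev (M + w))) →L[ℂ] H (In M (L × Ev (M + w))))
  (g' : H (In M (L × Od (M + w))) →L[ℂ] H (In M (L × Od (M + w)))), 1 ≤ M →
  (∀ i, ζ i ^ 4 = 1) → (∀ l, lam l ^ 4 = 1) → IsTo (clE M w L) TE →
  IsDg (fun i => ζ (Fin.castAdd w i)) (chE lam ζ) g →
  IsDg (fun i => ζ (Fin.castAdd w i)) (chO lam ζ) g' → HasInd g g' TE ((∑ l, lam l) * va M w ζ)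

/-- **Kc.** Constant symbols.  (Uses `Idx.S_L2`.)

Proof. `T₁ de (b, j) = ∑_{j'} A j' j • de (b, j')`; so `T₁` acts on the labels only, and the entry of `T₁ T₂ de (a, j)` at `(b, j'')` is
`∑_{j'} A j'' j' (g j' j)_{b - a} (pt a)`, the entry of `T₃`.  (Evaluate: the coordinate functional at `(b, j'')` of `T₁ x` is
`∑_{j'} A j'' j' x (b, j')`, both sides are continuous in `x` and agree on the basis vectors.) -/
def S_Kc : Prop := ∀ (M : ℕ) (J J' J'' : Type) [Fintype J] [Fintype J'] [Fintype J'']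
  (A : Matrix J'' J' ℂ) (f : Matrix J' J (GS M)) (T₁ : H (In M J') →L[ℂ] H (In M J''))
  (T₂ : H (In M J) →L[ℂ] H (In M J')) (T₃ : H (In M J) →L[ℂ] H (In M J'')),
  IsTo (A.map (cG : ℂ → GS M)) T₁ → IsTo f T₂ → IsTo (A.map (cG : ℂ → GS M) * f) T₃ →
  T₁ ∘L T₂ = T₃

/-- **Kp.** The symbol `phS`.  (Uses `S_C1`, `S_Cg`, `S_Ce`, `S_Cq`.)

Proof. Values: `S_Ce`, `ev_cG`.  Determinant: with `z' = (z, 0)`, `cl e * cl z'` restricted to the even part is invertible with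
inverse `cl z' * cl e` (`S_C1`, parity; `|e| = |z'| = 1`); blockwise for the labels.  Equivariance: by `S_Cg` for `e` (`ζ e = e`):
`cl e I' I ≠ 0` implies `chc I' = chc I`, and the coefficients of `clS` are as in `S_Cq`. -/
def S_Kp : Prop := ∀ (M w : ℕ) (L : Type) [Fintype L] [DecidableEq L] (L₀ : Finset L)
  (lam : L → ℂ) (ζ e : Fin (M + w) → ℂ), (∀ i, ζ i ^ 4 = 1) → (∑ i, ‖e i‖ ^ 2 = 1) →
  (∀ i, ζ i * e i = e i) →
  (∀ z : Fin M → ℂ, (phS M w L₀ e).map (ev z) = phF L₀ e (Fin.append z (0 : Fin w → ℂ))) ∧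
  (∀ z ∈ Sp M, (phF L₀ e (Fin.append z (0 : Fin w → ℂ))).det ≠ 0) ∧
  Eqs (fun i => ζ (Fin.castAdd w i)) (chE lam ζ) (chE lam ζ) (phS M w L₀ e)

/-- **K5.** The index of `phS`.
(Uses `Idx.S_I2`, `Idx.S_I4`, `Idx.S_I5`, `Idx.S_I8`, `Idx.S_L2`, `Idx.S_L5`, `Idx.S_L6`, `Toe.S_To1`, `Toe.S_To2`, `Toe.S_To5`,
`Toe.S_Dg`, `S_C1`, `S_Cg`, `S_K4`, `S_Kc`.)

Proof. Let `L' = {l // l ∈ L₀}`, `L'' = {l // l ∉ L₀}`.  The bijection `In M (L × Ev) ≃ In M (L' × Ev) ⊕ In M (L'' × Ev)` and `S_L6`, `S_L5` give an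
isomorphism `E`; `E T E⁻¹ = (A, 1)` (block diagonal), where `A` is the Toeplitz operator of the product of the constant matrix
`C = (cl e : odd → even)` (with labels in `L'`) and of `clE M w L'`.  By `S_Kc` `A = T_C T_E`.  `T_C` is invertible: the inverse is the
operator of the constant matrix `cl e : even → odd` (`S_C1`, `S_Kc`, `S_To2`), and equivariant (`S_Cg` for `z = e`, `S_To5`; coefficients only at
`k = 0`).  So `A` has the index `(∑_{l ∈ L'} λ_l) va + 0` (`S_K4`, `S_I4`, `S_I2`), `1` has index `0`, `S_I5` with `B = 0`, `S_I8`; `λ_l = 1` on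
`L'`. -/
def S_K5 : Prop := ∀ (M w : ℕ) (L : Type) [Fintype L] [DecidableEq L] (L₀ : Finset L)
  (lam : L → ℂ) (ζ e : Fin (M + w) → ℂ)
  (T g : H (In M (L × Ev (M + w))) →L[ℂ] H (In M (L × Ev (M + w)))), 1 ≤ M →
  (∀ i, ζ i ^ 4 = 1) → (∀ l, lam l ^ 4 = 1) → (∀ l ∈ L₀, lam l = 1) → (∑ i, ‖e i‖ ^ 2 = 1) →
  (∀ i, ζ i * e i = e i) → IsTo (phS M w L₀ e) T →
  IsDg (fun i => ζ (Fin.castAdd w i)) (chE lam ζ) g → HasInd g g T ((L₀.card : ℂ) * va M w ζ)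

/-- **Fn.** The final inequality.  (Uses `Toe.S_To1`, `Toe.S_Dg`, `Toe.S_Di`, `S_Kp`, `S_K5`.)

Proof. `J = L × Ev (M + w)`, `Φ = phS M w L₀ e`, `T` from `S_To1`, `g` from `S_Dg`, `w = L₀.card * va M w ζ` (`S_K5`).  `S_Di` for
`Fin.append (ζ ∘ castAdd) η`, `F`, `Φ` (`S_Kp`): `L₀.card * va M w ζ = ∏ (1 - η_i) (x + y i)` with integers `x`, `y`.  The left side is
not `0` (`L₀` nonempty, `ζ_i ≠ 0`, `ζ_{M+k} ≠ 1`), so `|x + y i| ≥ 1` (`x² + y²` is a positive integer).  Absolute values: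
`|ζ_i⁻¹| = 1`. -/
def S_Fn : Prop := ∀ (M w d : ℕ) (L : Type) [Fintype L] [DecidableEq L] (L₀ : Finset L)
  (lam : L → ℂ) (ζ e : Fin (M + w) → ℂ) (η : Fin d → ℂ)
  (F : (Fin (M + d) → ℂ) → Matrix (L × Ev (M + w)) (L × Ev (M + w)) ℂ), 1 ≤ M → L₀.Nonempty →
  (∀ i, ζ i ^ 4 = 1) → (∀ i, η i ^ 4 = 1) → (∀ l, lam l ^ 4 = 1) → (∀ l ∈ L₀, lam l = 1) →
  (∀ k : Fin w, ζ (Fin.natAdd M k) ≠ 1) → (∑ i, ‖e i‖ ^ 2 = 1) → (∀ i, ζ i * e i = e i) →
  ContinuousOn F (Sp (M + d)) →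
  EqF (Fin.append (fun i => ζ (Fin.castAdd w i)) η) (chE lam ζ) F →
  (∀ z ∈ Sp (M + d), (F z).det ≠ 0) →
  (∀ z ∈ Sp M, F (Fin.append z (0 : Fin d → ℂ)) = phF L₀ e (Fin.append z (0 : Fin w → ℂ))) →
  ∏ i : Fin d, ‖1 - η i‖ ≤ (L₀.card : ℝ) * ∏ k : Fin w, ‖1 - (ζ (Fin.natAdd M k))⁻¹‖

end Pool.Agent.Tate.Ko
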